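import Pool.Agent.N422.NW.Stm

/-! Project NW, part AR (helper92): from the product model to periodic functions -/

set_option autoImplicit false

open Finset

namespace Pool.Agent.N422.NW

/-- sums over a period are invariant under shifts -/
theorem AR_shift (M : ℕ) (g : ℕ → ℝ) (hg : Function.Periodic g M) (c : ℕ) :
    ∑ x ∈ range M, g (x + c) = ∑ x ∈ range M, g x := by
  induction c with
  | zero => rfl
  | succ c ih =>
    have h1 : ∑ x ∈ range (M + 1), g (x + c) = ∑ x ∈ range M, g (x + c) + g (M + c) :=
      Finset.sum_range_succ _ _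
    have h2 : ∑ x ∈ range (M + 1), g (x + c) = ∑ x ∈ range M, g (x + 1 + c) + g (0 + c) :=
      Finset.sum_range_succ' _ _
    have h3 : g (M + c) = g (0 + c) := by
      rw [zero_add, add_comm M c]; exact hg c
    have h4 : ∑ x ∈ range M, g (x + (c + 1)) = ∑ x ∈ range M, g (x + 1 + c) := by
      apply Finset.sum_congr rfl
      intro x _
      congr 1; ring
    rw [h4]
    linarith

/-- the sum over an arithmetic progression with difference coprime to `p` -/
theorem AR_prog (p D : ℕ) (hp : 0 < p) (hD : p.Coprime D) (v : ℕ → ℝ) (hv : Function.Periodic v p)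
    (x : ℕ) : ∑ j ∈ range p, v (x + D * j) = ∑ y ∈ range p, v y := by
  have hinj : Set.InjOn (fun j => (x + D * j) % p) (range p : Set ℕ) := by
    intro i hi j hj hij
    rw [Finset.mem_coe, Finset.mem_range] at hi hj
    have h1 : x + D * i ≡ x + D * j [MOD p] := hij
    have h2 : D * i ≡ D * j [MOD p] := Nat.ModEq.add_left_cancel' x h1
    have h3 : i ≡ j [MOD p] := Nat.ModEq.cancel_left_of_coprime hD h2
    exact Nat.ModEq.eq_of_lt_of_lt h3 hi hj
  have himg : (range p).image (fun j => (x + D * j) % p) = range p := by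
    apply Finset.eq_of_subset_of_card_le
    · intro y hy
      obtain ⟨j, -, rfl⟩ := Finset.mem_image.mp hy
      exact Finset.mem_range.mpr (Nat.mod_lt _ hp)
    · rw [Finset.card_image_of_injOn hinj]
  calc ∑ j ∈ range p, v (x + D * j) = ∑ j ∈ range p, v ((x + D * j) % p) := by
        apply Finset.sum_congr rfl
        intro j _
        exact (hv.map_mod_nat _).symm
    _ = ∑ y ∈ (range p).image (fun j => (x + D * j) % p), v y :=
        (Finset.sum_image hinj).symm
    _ = _ := by rw [himg]

theorem AR_periodic_dvd {D M : ℕ} (g : ℕ → ℝ) (hg : Function.Periodic g D) (h : D ∣ M) :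
    Function.Periodic g M := by
  obtain ⟨e, rfl⟩ := h
  have := hg.nat_mul e
  rwa [mul_comm] at this

/-- independence of a function periodic modulo `p` and one periodic modulo `D` -/
theorem AR_one (M p D : ℕ) (hp : 0 < p) (hD : p.Coprime D) (hpM : p ∣ M) (hDM : D ∣ M)
    (u v : ℕ → ℝ) (hu : Function.Periodic u D) (hv : Function.Periodic v p) :
    ∑ x ∈ range M, v x * u x = (∑ y ∈ range p, v y) / p * ∑ x ∈ range M, u x := by
  have hper : Function.Periodic (fun x => v x * u x) M := by
    intro x
    have h1 := AR_periodic_dvd v hv hpM x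
    have h2 := AR_periodic_dvd u hu hDM x
    simp only
    rw [h1, h2]
  have hp0 : (0 : ℝ) < p := by exact_mod_cast hp
  have h1 : ∀ j : ℕ, ∑ x ∈ range M, v x * u x = ∑ x ∈ range M, v (x + D * j) * u x := by
    intro j
    rw [← AR_shift M _ hper (D * j)]
    apply Finset.sum_congr rfl
    intro x _
    have := (AR_periodic_dvd u hu (Dvd.intro j rfl)) x
    rw [this]
  have h2 : (p : ℝ) * ∑ x ∈ range M, v x * u x =
      ∑ j ∈ range p, ∑ x ∈ range M, v (x + D * j) * u x := by
    rw [← Finset.sum_congr rfl (fun j _ => h1 j), Finset.sum_const, Finset.card_range, nsmul_eq_mul]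
  rw [Finset.sum_comm] at h2
  have h3 : ∑ x ∈ range M, ∑ j ∈ range p, v (x + D * j) * u x =
      (∑ y ∈ range p, v y) * ∑ x ∈ range M, u x := by
    rw [Finset.mul_sum]
    apply Finset.sum_congr rfl
    intro x _
    rw [← Finset.sum_mul, AR_prog p D hp hD v hv x]
  rw [h3] at h2
  rw [div_mul_eq_mul_div, ← h2]
  field_simp

section

variable {N k : ℕ} (hs : Fin k → ℕ) (q : Fin N → ℕ)

open Classical in
/-- the state of `x` -/
noncomputable def ARpat (x : ℕ) : St N k := fun i =>
  if h : ∃ a, q i ∣ x + hs a then some h.choose else none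

theorem ARpat_some
    (hu : ∀ (i : Fin N) (x : ℕ) (a a' : Fin k), q i ∣ x + hs a → q i ∣ x + hs a' → a = a')
    (x : ℕ) (i : Fin N) (a : Fin k) : ARpat hs q x i = some a ↔ q i ∣ x + hs a := by
  unfold ARpat
  constructor
  · intro h
    split_ifs at h with h1
    rw [Option.some_inj] at h
    rw [← h]; exact h1.choose_spec
  · intro h
    have h1 : ∃ a, q i ∣ x + hs a := ⟨a, h⟩
    rw [dif_pos h1, Option.some_inj]
    exact hu i x _ _ h1.choose_spec h

theorem ARpat_per
    (hu : ∀ (i : Fin N) (x : ℕ) (a a' : Fin k), q i ∣ x + hs a → q i ∣ x + hs a' → a = a')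
    (D : ℕ) (i : Fin N) (hD : q i ∣ D) (x : ℕ) : ARpat hs q (x + D) i = ARpat hs q x i := by
  apply Option.ext
  intro a
  have h1 := ARpat_some hs q hu (x + D) i a
  have h2 := ARpat_some hs q hu x i a
  have h3 : q i ∣ x + D + hs a ↔ q i ∣ x + hs a := by
    have : x + D + hs a = (x + hs a) + D := by ring
    rw [this]
    exact (Nat.dvd_add_iff_left hD).symm
  exact h1.trans (h3.trans h2.symm)

/-- the number of residues with a given state -/
theorem ARpat_count
    (hu : ∀ (i : Fin N) (x : ℕ) (a a' : Fin k), q i ∣ x + hs a → q i ∣ x + hs a' → a = a')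
    (i : Fin N) (hq : 0 < q i) (c : Option (Fin k)) :
    (∑ y ∈ range (q i), (if ARpat hs q y i = c then (1 : ℝ) else 0)) / q i =
      mu1 (q i : ℝ) c := by
  have hq0 : (0 : ℝ) < q i := by exact_mod_cast hq
  have hsome : ∀ a : Fin k,
      ∑ y ∈ range (q i), (if ARpat hs q y i = some a then (1 : ℝ) else 0) = 1 := by
    intro a
    have h1 : Function.Periodic (fun y => if q i ∣ y then (1 : ℝ) else 0) (q i) := by
      intro y
      simp only [Nat.dvd_add_self_right]
    have h2 := AR_shift (q i) _ h1 (hs a)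
    have h3 : ∑ y ∈ range (q i), (if ARpat hs q y i = some a then (1 : ℝ) else 0) =
        ∑ y ∈ range (q i), (if q i ∣ y + hs a then (1 : ℝ) else 0) := by
      apply Finset.sum_congr rfl
      intro y _
      simp only [ARpat_some hs q hu]
    rw [h3, h2, Finset.sum_eq_single 0]
    · simp
    · intro y hy hy0
      rw [Finset.mem_range] at hy
      rw [if_neg]
      intro hd
      exact absurd (Nat.le_of_dvd (by omega) hd) (by omega)
    · intro h
      exact absurd (Finset.mem_range.mpr hq) h
  cases c with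
  | some a =>
    rw [hsome a]
    rfl
  | none =>
    have htot : ∑ c : Option (Fin k), ∑ y ∈ range (q i),
        (if ARpat hs q y i = c then (1 : ℝ) else 0) = q i := by
      rw [Finset.sum_comm]
      have : ∀ y ∈ range (q i), ∑ c : Option (Fin k),
          (if ARpat hs q y i = c then (1 : ℝ) else 0) = 1 := by
        intro y _
        rw [Finset.sum_ite_eq]
        simp
      rw [Finset.sum_congr rfl this, Finset.sum_const, Finset.card_range, nsmul_eq_mul, mul_one]
    rw [Fintype.sum_option] at htot
    simp only [hsome] at htot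
    rw [Finset.sum_const, Finset.card_univ, Fintype.card_fin, nsmul_eq_mul, mul_one] at htot
    unfold mu1
    rw [div_eq_iff hq0.ne', sub_mul, div_mul_cancel₀ _ hq0.ne']
    linarith

/-- independence -/
theorem AR_indep
    (hu : ∀ (i : Fin N) (x : ℕ) (a a' : Fin k), q i ∣ x + hs a → q i ∣ x + hs a' → a = a')
    (hinj : Function.Injective q) (hp : ∀ i, (q i).Prime) (M : ℕ) (hM : 0 < M)
    (hqM : ∀ i, q i ∣ M) (γ : St N k) (T : Finset (Fin N)) (D : ℕ) (G : ℕ → ℝ)
    (hG : Function.Periodic G D) (hDM : D ∣ M) (hT : ∀ i ∈ T, ¬ q i ∣ D) :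
    ∑ x ∈ range M, (if ∀ i ∈ T, ARpat hs q x i = γ i then G x else 0) =
      (∏ i ∈ T, mu1 (q i : ℝ) (γ i)) * ∑ x ∈ range M, G x := by
  classical
  induction T using Finset.induction_on with
  | empty => simp
  | insert j T hj ih =>
    have ih' := ih (fun i hi => hT i (Finset.mem_insert_of_mem hi))
    set M' : ℕ := ordCompl[q j] M with hM'
    have hcop : (q j).Coprime M' := Nat.coprime_ordCompl (hp j) hM.ne'
    have hM'M : M' ∣ M := Nat.ordCompl_dvd M (q j)
    have hdv : ∀ e : ℕ, e ∣ M → (q j).Coprime e → e ∣ M' := by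
      intro e he hc
      have h1 : e ∣ ordProj[q j] M * ordCompl[q j] M := by
        rw [Nat.ordProj_mul_ordCompl_eq_self]; exact he
      exact Nat.Coprime.dvd_of_dvd_mul_left (Nat.Coprime.pow_right _ hc.symm) h1
    have hDM' : D ∣ M' := hdv D hDM (((hp j).coprime_iff_not_dvd).mpr
      (hT j (Finset.mem_insert_self _ _)))
    have hqM' : ∀ i ∈ T, q i ∣ M' := by
      intro i hi
      apply hdv _ (hqM i)
      rw [Nat.coprime_primes (hp j) (hp i)]
      intro h
      exact hj (hinj h ▸ hi)
    have hu' : Function.Periodic (fun x => if ∀ i ∈ T, ARpat hs q x i = γ i then G x else 0) M' := by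
      intro x
      have h1 := AR_periodic_dvd G hG hDM' x
      have h2 : (∀ i ∈ T, ARpat hs q (x + M') i = γ i) ↔ (∀ i ∈ T, ARpat hs q x i = γ i) := by
        constructor
        · intro h i hi; rw [← ARpat_per hs q hu M' i (hqM' i hi) x]; exact h i hi
        · intro h i hi; rw [ARpat_per hs q hu M' i (hqM' i hi) x]; exact h i hi
      simp only [h1, h2]
    have hv' : Function.Periodic (fun x => if ARpat hs q x j = γ j then (1 : ℝ) else 0) (q j) := by
      intro x
      simp only [ARpat_per hs q hu (q j) j dvd_rfl x]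
    have h3 := AR_one M (q j) M' (hp j).pos hcop (hqM j) hM'M _ _ hu' hv'
    rw [ARpat_count hs q hu j (hp j).pos, ih'] at h3
    rw [Finset.prod_insert hj, mul_assoc, ← h3]
    apply Finset.sum_congr rfl
    intro x _
    simp only [Finset.forall_mem_insert]
    by_cases h4 : ARpat hs q x j = γ j
    · simp [h4]
    · simp [h4]

end

theorem AR_mu_pos {N k : ℕ} (q : Fin N → ℕ) (hq : ∀ i, k < q i) (γ : St N k) (S : Finset (Fin N)) :
    0 < ∏ i ∈ S, mu1 (q i : ℝ) (γ i) := by
  apply Finset.prod_pos
  intro i _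
  have hq0 : (0 : ℝ) < q i := by exact_mod_cast (Nat.zero_le k).trans_lt (hq i)
  unfold mu1
  split
  · positivity
  · have : (k : ℝ) / q i < 1 := by rw [div_lt_one hq0]; exact_mod_cast hq i
    linarith

theorem t_AR : S_AR := by
  classical
  intro N k hs q ν n Q M F b hinj hp hu hM hqM hF hW hν hb
  set pat : ℕ → St N k := ARpat hs q with hpat
  set W : ℕ → ℝ := fun x => ∑ d ∈ Icc 1 Q, F d x with hWd
  set mu : St N k → ℝ := muP (fun i => (q i : ℝ)) with hmu
  have hmu0 : ∀ γ, 0 < mu γ := by
    intro γ
    have := AR_mu_pos q (fun i => (hp i).2) γ univ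
    exact this
  have hM0 : (0 : ℝ) < M := by exact_mod_cast hM
  -- the functions on the states
  set tr : (ℕ → ℝ) → St N k → ℝ := fun u γ =>
    1 / (M * mu γ) * ∑ x ∈ range M, (if pat x = γ then u x else 0) with htr
  have htrW : ∀ (u : ℕ → ℝ) (Φ : St N k → ℝ),
      ∑ γ, mu γ * tr u γ * Φ γ = 1 / M * ∑ x ∈ range M, u x * Φ (pat x) := by
    intro u Φ
    have h1 : ∀ γ, mu γ * tr u γ * Φ γ =
        1 / M * ∑ x ∈ range M, (if pat x = γ then u x * Φ γ else 0) := by
      intro γ
      have h2 : mu γ * tr u γ = 1 / M * ∑ x ∈ range M, (if pat x = γ then u x else 0) := by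
        simp only [htr]
        have := (hmu0 γ).ne'
        field_simp
      rw [h2, mul_assoc, Finset.sum_mul]
      congr 1
      apply Finset.sum_congr rfl
      intro x _
      split_ifs <;> simp
    simp only [h1]
    rw [← Finset.mul_sum, Finset.sum_comm]
    congr 1
    apply Finset.sum_congr rfl
    intro x _
    rw [Finset.sum_ite_eq]
    simp
  -- the level
  have hlev : ∀ d ∈ Icc 1 Q, ∀ γ γ' : St N k,
      (∀ i ∈ univ.filter (fun i => q i ∣ d), γ i = γ' i) → tr (F d) γ = tr (F d) γ' := by
    intro d hd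
    set S : Finset (Fin N) := univ.filter (fun i => q i ∣ d) with hS
    have key : ∀ γ : St N k, tr (F d) γ = 1 / (M * ∏ i ∈ S, mu1 (q i : ℝ) (γ i)) *
        ∑ x ∈ range M, (if ∀ i ∈ S, pat x i = γ i then F d x else 0) := by
      intro γ
      have hper : Function.Periodic (fun x => if ∀ i ∈ S, pat x i = γ i then F d x else 0) d := by
        intro x
        have h1 := (hF d hd).1 x
        have h0 : ∀ i ∈ S, pat (x + d) i = pat x i := by
          intro i hi
          rw [hS, Finset.mem_filter] at hi
          exact ARpat_per hs q hu d i hi.2 x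
        have h2 : (∀ i ∈ S, pat (x + d) i = γ i) ↔ (∀ i ∈ S, pat x i = γ i) := by
          constructor
          · intro h i hi; rw [← h0 i hi]; exact h i hi
          · intro h i hi; rw [h0 i hi]; exact h i hi
        simp only [h1, h2]
      have h3 := AR_indep hs q hu hinj (fun i => (hp i).1) M hM hqM γ (univ \ S) d _ hper
        (hF d hd).2 (by
          intro i hi
          rw [Finset.mem_sdiff, hS, Finset.mem_filter] at hi
          intro h
          exact hi.2 ⟨Finset.mem_univ _, h⟩)
      have h4 : ∑ x ∈ range M, (if pat x = γ then F d x else 0) =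
          ∑ x ∈ range M, (if ∀ i ∈ univ \ S, ARpat hs q x i = γ i then
            (if ∀ i ∈ S, pat x i = γ i then F d x else 0) else 0) := by
        apply Finset.sum_congr rfl
        intro x _
        by_cases h : pat x = γ
        · rw [if_pos h, if_pos (fun i _ => congrFun h i), if_pos (fun i _ => congrFun h i)]
        · rw [if_neg h]
          by_cases h5 : ∀ i ∈ univ \ S, ARpat hs q x i = γ i
          · rw [if_pos h5, if_neg]
            intro h6
            apply h
            funext i
            by_cases hi : i ∈ S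
            · exact h6 i hi
            · exact h5 i (Finset.mem_sdiff.mpr ⟨Finset.mem_univ _, hi⟩)
          · rw [if_neg h5]
      have h5 : mu γ = (∏ i ∈ univ \ S, mu1 (q i : ℝ) (γ i)) * ∏ i ∈ S, mu1 (q i : ℝ) (γ i) := by
        rw [Finset.prod_sdiff (Finset.subset_univ S)]
        rfl
      have h6 := AR_mu_pos q (fun i => (hp i).2) γ S
      have h7 := AR_mu_pos q (fun i => (hp i).2) γ (univ \ S)
      simp only [htr]
      rw [h4, h3, h5]
      field_simp
    intro γ γ' hγ
    rw [key γ, key γ']
    have h1 : ∏ i ∈ S, mu1 (q i : ℝ) (γ i) = ∏ i ∈ S, mu1 (q i : ℝ) (γ' i) :=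
      Finset.prod_congr rfl (fun i hi => by rw [hγ i hi])
    have h2 : ∀ x, (∀ i ∈ S, pat x i = γ i) ↔ (∀ i ∈ S, pat x i = γ' i) := by
      intro x
      constructor
      · intro h i hi; rw [← hγ i hi]; exact h i hi
      · intro h i hi; rw [hγ i hi]; exact h i hi
    rw [h1]
    simp only [h2]
  have hWsum : ∀ γ, tr W γ = ∑ y : Fin Q, tr (F (y + 1)) γ := by
    intro γ
    have h1 : ∀ g : ℕ → ℝ, ∑ y : Fin Q, g (y + 1) = ∑ d ∈ Icc 1 Q, g d := by
      intro g
      rw [Fin.sum_univ_eq_sum_range (fun y => g (y + 1)) Q, Finset.range_eq_Ico,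
        Finset.sum_Ico_add' g 0 Q 1]
      apply Finset.sum_congr _ (fun _ _ => rfl)
      ext d
      simp only [Finset.mem_Ico, Finset.mem_Icc]
      omega
    rw [h1 (fun d => tr (F d) γ)]
    simp only [htr]
    rw [← Finset.mul_sum, Finset.sum_comm]
    congr 1
    apply Finset.sum_congr rfl
    intro x _
    split_ifs
    · rfl
    · simp
  have hmain := hb (tr W) (by
    intro γ
    simp only [htr]
    apply mul_nonneg
    · have := hmu0 γ; positivity
    · apply Finset.sum_nonneg
      intro x _
      split_ifs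
      · exact hW x
      · exact le_rfl) ⟨Q, fun y => univ.filter (fun i => q i ∣ (y + 1 : ℕ)), fun y => tr (F (y + 1)), by
        intro y
        exact hν (y + 1) (Finset.mem_Icc.mpr ⟨by omega, by omega⟩), by
        intro y γ γ' h
        exact hlev (y + 1) (Finset.mem_Icc.mpr ⟨by omega, by omega⟩) γ γ' h, hWsum⟩
  have e1 := htrW W (fun γ => ((alive γ N).card : ℝ))
  have e2 := htrW W (fun _ => 1)
  simp only [mul_one] at e2
  have e3 : ∀ x, (alive (pat x) N) = univ.filter (fun a : Fin k => ∀ i, ¬ q i ∣ x + hs a) := by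
    intro x
    unfold alive
    ext a
    simp only [Finset.mem_filter, Finset.mem_univ, true_and]
    constructor
    · intro h i hd
      exact h i i.2 ((ARpat_some hs q hu x i a).mpr hd)
    · intro h i _ hd
      exact h i ((ARpat_some hs q hu x i a).mp hd)
  rw [e1, e2] at hmain
  have hmain' := mul_le_mul_of_nonneg_left hmain hM0.le
  have e4 : (M : ℝ) * (1 / M * ∑ x ∈ range M, W x * ((alive (pat x) N).card : ℝ)) =
      ∑ x ∈ range M, W x * ((alive (pat x) N).card : ℝ) := by
    field_simp
  have e5 : (M : ℝ) * (b * (1 / M * ∑ x ∈ range M, W x)) = b * ∑ x ∈ range M, W x := by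
    field_simp
  rw [e4, e5] at hmain'
  refine le_trans (le_of_eq ?_) hmain'
  apply Finset.sum_congr rfl
  intro x _
  rw [e3 x]

end Pool.Agent.N422.NW
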