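import Mathlib

/-! Project NW (helper422): the limit for all nonnegative weights: definitions and statements of the self-contained
pieces. -/

set_option autoImplicit false

open Finset

namespace Pool.Agent.N422.NW

/-- states: at every place either no site is hit (`none`), or exactly one of the `k` sites -/
abbrev St (N k : ℕ) := Fin N → Option (Fin k)

/-- the local law: every site is hit with probability `1/q` -/
noncomputable def mu1 {k : ℕ} (q : ℝ) : Option (Fin k) → ℝ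
  | some _ => 1 / q
  | none => 1 - k / q

/-- the law -/
noncomputable def muP {N k : ℕ} (q : Fin N → ℝ) (γ : St N k) : ℝ := ∏ i, mu1 (q i) (γ i)

/-- the sites not hit at the places `< i` -/
def alive {N k : ℕ} (γ : St N k) (i : ℕ) : Finset (Fin k) :=
  univ.filter (fun a => ∀ j : Fin N, (j : ℕ) < i → γ j ≠ some a)

/-- the local state `c` hits a site of `s` -/
def Hit {k : ℕ} (s : Finset (Fin k)) (c : Option (Fin k)) : Prop := ∃ a ∈ s, c = some a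

instance {k : ℕ} (s : Finset (Fin k)) (c : Option (Fin k)) : Decidable (Hit s c) := by
  unfold Hit
  infer_instance

/-- sums of functions each of which depends only on a set of places of total level at most `n` -/
def Lev {N k : ℕ} (ν : Fin N → ℕ) (n : ℕ) (f : St N k → ℝ) : Prop :=
  ∃ (m : ℕ) (S : Fin m → Finset (Fin N)) (g : Fin m → St N k → ℝ),
    (∀ x, ∑ i ∈ S x, ν i ≤ n) ∧ (∀ x γ γ', (∀ i ∈ S x, γ i = γ' i) → g x γ = g x γ') ∧ ∀ γ, f γ = ∑ x, g x γ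

/-- the local kernel: with rate `r`, the place `i` is moved to a site not hit before -/
noncomputable def ker1 {K : Type} [Field K] {N k : ℕ} (q r : Fin N → K) (γ : St N k) (i : Fin N)
    (c : Option (Fin k)) : K :=
  (1 - ((alive γ i).card : K) * r i / q i) * (if c = γ i then 1 else 0) +
    r i / q i * (if Hit (alive γ i) c then 1 else 0)

/-- the kernel -/
noncomputable def ker {K : Type} [Field K] {N k : ℕ} (q r : Fin N → K) (f : St N k → K) (γ : St N k) : K :=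
  ∑ γ' : St N k, (∏ i, ker1 q r γ i (γ' i)) * f γ'

/-- the density of the law which the kernel transports to `muP` -/
noncomputable def phi {N k : ℕ} (q r : Fin N → ℝ) (γ : St N k) : ℝ :=
  ∏ i : Fin N, (if Hit (alive γ i) (γ i) then 1 - r i else 1) / (1 - ((alive γ i).card : ℝ) * r i / q i)

/-- the kernel identity (NW/KER) -/
def S_KER : Prop := ∀ (N k : ℕ) (q r : Fin N → ℝ), (∀ i, (k : ℝ) < q i) → (∀ i, 0 ≤ r i ∧ r i ≤ 1) →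
  ∀ f : St N k → ℝ, ∑ γ, muP q γ * phi q r γ * ker q r f γ = ∑ γ, muP q γ * f γ

/-- polynomials (NW/POLY) -/
def S_POLY : Prop := ∀ (N k n : ℕ) (q : Fin N → ℝ) (ν : Fin N → ℕ) (f : St N k → ℝ), Lev ν n f →
  ∀ (c R : Fin N → ℝ) (γ : St N k), ∃ P : Polynomial ℂ, P.natDegree ≤ 2 * n ∧ ∀ z : ℂ, z ≠ 0 →
    P.eval z = z ^ n * ker (fun i => (q i : ℂ)) (fun i => (R i : ℂ) * ((c i : ℂ) - (z ^ ν i + (z⁻¹) ^ ν i) / 2))
      (fun γ' => (f γ' : ℂ)) γ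

/-- the map of the disc which moves `0` to `s` -/
noncomputable def psi (s : ℝ) (w : ℂ) : ℂ := (w + s) / (1 + s * w)

/-- the inequality of Jensen at the point `s` (NW/JEN) -/
def S_JEN : Prop := ∀ (P : Polynomial ℂ) (s : ℝ), 0 < s → s < 1 → P.eval (s : ℂ) ≠ 0 →
  CircleIntegrable (fun w => Real.log ‖P.eval (psi s w)‖) 0 1 ∧
  Real.log ‖P.eval (s : ℂ)‖ ≤ Real.circleAverage (fun w => Real.log ‖P.eval (psi s w)‖) 0 1

/-- mean values (NW/JEN): with `x = m t`, `r(w) = cosh x - Re ψ(w)^m` has mean `sinh x` and mean square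
`sinh x cosh x` -/
def S_AV : Prop := ∀ (m : ℕ) (t : ℝ), 0 < t →
  (∀ w : ℂ, ‖w‖ = 1 → ‖psi (Real.exp (-t)) w‖ = 1) ∧
  Continuous (fun θ : ℝ => psi (Real.exp (-t)) (circleMap 0 1 θ)) ∧
  Real.circleAverage (fun w => Real.cosh (m * t) - ((psi (Real.exp (-t)) w) ^ m).re) 0 1 = Real.sinh (m * t) ∧
  Real.circleAverage (fun w => (Real.cosh (m * t) - ((psi (Real.exp (-t)) w) ^ m).re) ^ 2) 0 1 =
    Real.sinh (m * t) * Real.cosh (m * t)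

/-- the main inequality (NW/CORE) -/
def S_NW1 : Prop := ∀ (N k n : ℕ) (q : Fin N → ℝ) (ν : Fin N → ℕ) (f : St N k → ℝ), (∀ i, (k : ℝ) < q i) →
  (∀ γ, 0 ≤ f γ) → Lev ν n f → ∀ t : ℝ, 0 < t → ∀ (R : Fin N → ℝ) (c1 r0 : ℝ), (∀ i, 0 ≤ R i) → 0 ≤ c1 → r0 < 1 →
  (∀ r : ℝ, 0 ≤ r → r ≤ r0 → -Real.log (1 - r) ≤ r + c1 * r ^ 2) →
  (∀ i, R i * (Real.cosh (ν i * t) + 1) ≤ r0) →
  ∑ γ, muP q γ * f γ * ∑ i, R i * Real.sinh (ν i * t) * (((alive γ i).card : ℝ) / q i -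
      (1 + c1 * R i * Real.cosh (ν i * t)) * (if Hit (alive γ i) (γ i) then 1 else 0)) ≤
    n * t * ∑ γ, muP q γ * f γ

/-- the numerical sequence (NW/ODE) -/
def S_ODE : Prop := ∀ (ε A : ℝ) (k m n : ℕ) (η Ch κ : ℝ) (R : ℕ → ℝ), 0 < ε → ε ≤ 1 → 1 ≤ A → 1 ≤ k →
  κ = (ε / 16) / (A + (1 / 2 + ε / 4) * Real.log k) → 4 / κ ≤ m → n = k * m → 0 ≤ η → η * (4 * n) ≤ κ →
  1 ≤ Ch → Ch ^ 2 ≤ 1 + κ / 2 → (∀ j, R j = 1 / (A + (1 / 2 + ε / 4) * Real.log ((j : ℝ) / m))) →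
  ∀ (a h : ℕ → ℝ) (E : ℝ), 0 ≤ E → (∀ j, 0 ≤ a j) → (∀ j, m ≤ j → j < n → a (j + 1) ≤ a j) → a m ≤ k * E →
  (∀ j, m ≤ j → j < n → Real.log (((j : ℝ) + 1) / j) - η ≤ h j) →
  ∑ j ∈ Ico m n, (j * R j * h j * a (j + 1) -
    Ch * j * R j * (1 + (1 / 2 + ε / 8) * Ch * R j) * (a j - a (j + 1))) ≤ n * E →
  a n ≤ (1 + (1 / A + (1 / 2 + ε / 8) / A ^ 2)) * (A + (1 / 2 + ε / 4) * Real.log k) * E

/-- the limit in the model (NW/PS) -/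
def S_PS : Prop := ∀ ε : ℝ, 0 < ε → ∃ C : ℝ, 0 ≤ C ∧ ∀ k : ℕ, 1 ≤ k → ∃ (m n : ℕ) (η : ℝ), 0 < m ∧ m ≤ n ∧ 0 < η ∧
  ∀ (N : ℕ) (q : Fin N → ℝ) (β : Fin N → ℕ), Monotone β → (∀ i, m ≤ β i ∧ β i < n) → (∀ i, (k : ℝ) < q i) →
  (∀ j, m ≤ j → j < n → Real.log (((j : ℝ) + 1) / j) - η ≤ ∑ i ∈ univ.filter (fun i => β i = j), 1 / q i) →
  ∀ f : St N k → ℝ, (∀ γ, 0 ≤ f γ) → Lev β n f →
    ∑ γ, muP q γ * f γ * ((alive γ N).card : ℝ) ≤ ((1 / 2 + ε) * Real.log k + C) * ∑ γ, muP q γ * f γ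

/-- from the model to periodic functions (NW/AR) -/
def S_AR : Prop := ∀ (N k : ℕ) (hs : Fin k → ℕ) (q ν : Fin N → ℕ) (n Q M : ℕ) (F : ℕ → ℕ → ℝ) (b : ℝ),
  Function.Injective q → (∀ i, (q i).Prime ∧ k < q i) →
  (∀ (i : Fin N) (x : ℕ) (a a' : Fin k), q i ∣ x + hs a → q i ∣ x + hs a' → a = a') →
  0 < M → (∀ i, q i ∣ M) → (∀ d ∈ Icc 1 Q, Function.Periodic (F d) d ∧ d ∣ M) →
  (∀ x, 0 ≤ ∑ d ∈ Icc 1 Q, F d x) → (∀ d ∈ Icc 1 Q, ∑ i ∈ univ.filter (fun i => q i ∣ d), ν i ≤ n) →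
  (∀ f : St N k → ℝ, (∀ γ, 0 ≤ f γ) → Lev ν n f →
    ∑ γ, muP (fun i => (q i : ℝ)) γ * f γ * ((alive γ N).card : ℝ) ≤ b * ∑ γ, muP (fun i => (q i : ℝ)) γ * f γ) →
  ∑ x ∈ range M, (∑ d ∈ Icc 1 Q, F d x) * ((univ.filter (fun a : Fin k => ∀ i, ¬ q i ∣ x + hs a)).card : ℝ) ≤
    b * ∑ x ∈ range M, ∑ d ∈ Icc 1 Q, F d x

/-- the primes in the blocks (NW/MER) -/
def S_MER : Prop := ∀ (m n : ℕ) (B η : ℝ), 0 < m → m ≤ n → 0 < η → ∃ Q0 : ℕ, ∀ Q : ℕ, Q0 ≤ Q →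
  ∀ Bd : Finset ℕ, (∀ p ∈ Bd, p.Prime) → ∑ p ∈ Bd, Real.log p ≤ B * Real.log Q → ∀ j, m ≤ j → j < n →
  Real.log (((j : ℝ) + 1) / j) - η ≤ ∑ p ∈ ((Icc 1 Q).filter Nat.Prime).filter (fun p => p ∉ Bd ∧
    (j : ℝ) * Real.log Q < n * Real.log p ∧ n * Real.log p ≤ ((j : ℝ) + 1) * Real.log Q), 1 / (p : ℝ)

/-- the product over the primes (NW/MER) -/
def S_VQ : Prop := (∀ δ : ℝ, 0 < δ → ∃ Q0 : ℕ, ∀ Q : ℕ, Q0 ≤ Q →
    (∏ p ∈ (Icc 1 Q).filter Nat.Prime, (1 - 1 / (p : ℝ)))⁻¹ ≤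
      (Real.exp Real.eulerMascheroniConstant + δ) * Real.log Q) ∧
  ∃ C : ℝ, 0 < C ∧ ∀ Q : ℕ, 1 ≤ Q → (∏ p ∈ (Icc 1 Q).filter Nat.Prime, (1 - 1 / (p : ℝ)))⁻¹ ≤ C * (1 + Real.log Q)

end Pool.Agent.N422.NW
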