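import Mathlib
import Pool.Agent.N422.NW.Stm

/-! Project NW: the limit in the model. -/

set_option autoImplicit false

open Finset

namespace Pool.Agent.N422.NW

theorem PS_log {ε r : ℝ} (hε : 0 < ε) (hε1 : ε ≤ 1) (hr : 0 ≤ r) (hr1 : r ≤ ε / 9) :
    -Real.log (1 - r) ≤ r + (1 / 2 + ε / 8) * r ^ 2 := by
  have h1 : |r| < 1 := by
    rw [abs_of_nonneg hr]
    linarith
  have h2 := (abs_le.1 (Real.abs_log_sub_add_sum_range_le h1 2)).1
  rw [abs_of_nonneg hr, Finset.sum_range_succ, Finset.sum_range_one] at h2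
  norm_num at h2
  have h3 : r ^ 3 / (1 - r) ≤ ε / 8 * r ^ 2 := by
    rw [div_le_iff₀ (by linarith)]
    have h4 : r ≤ ε / 8 * (1 - r) := by nlinarith
    have h5 := mul_le_mul_of_nonneg_left h4 (sq_nonneg r)
    nlinarith
  linarith

theorem PS_cosh {κ : ℝ} (h0 : 0 < κ) (h1 : κ ≤ 1) : Real.cosh (κ / 2) ^ 2 ≤ 1 + κ / 2 := by
  have e1 := Real.cosh_le_exp_half_sq (κ / 2)
  have e2 : Real.cosh (κ / 2) ^ 2 ≤ Real.exp ((κ / 2) ^ 2 / 2) ^ 2 :=
    pow_le_pow_left₀ (Real.cosh_pos _).le e1 2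
  have e3 : Real.exp ((κ / 2) ^ 2 / 2) ^ 2 = Real.exp (κ ^ 2 / 4) := by
    rw [← Real.exp_nat_mul]
    congr 1
    push_cast
    ring
  have e4 := Real.add_one_le_exp (-(κ ^ 2 / 4))
  rw [Real.exp_neg] at e4
  have e5 := Real.exp_pos (κ ^ 2 / 4)
  have e6 : (-(κ ^ 2 / 4) + 1) * Real.exp (κ ^ 2 / 4) ≤ 1 := by
    have := mul_le_mul_of_nonneg_right e4 e5.le
    rwa [inv_mul_cancel₀ e5.ne'] at this
  have e7 : κ ^ 2 ≤ κ := by nlinarith
  have e8 : Real.exp (κ ^ 2 / 4) ≤ 1 + κ / 2 := by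
    have e9 : 1 ≤ (-(κ ^ 2 / 4) + 1) * (1 + κ / 2) := by nlinarith
    have e10 : 0 < -(κ ^ 2 / 4) + 1 := by nlinarith
    exact le_of_mul_le_mul_left (e6.trans e9) e10
  rw [e3] at e2
  exact e2.trans e8

theorem PS_sinh {x : ℝ} (hx : 0 ≤ x) : Real.sinh x ≤ x * Real.cosh x := by
  have hd : ∀ y : ℝ, HasDerivAt (fun y => y * Real.cosh y - Real.sinh y) (y * Real.sinh y) y := by
    intro y
    have h := ((hasDerivAt_id y).mul (Real.hasDerivAt_cosh y)).sub (Real.hasDerivAt_sinh y)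
    refine h.congr_deriv ?_
    simp
  have hmono : MonotoneOn (fun y => y * Real.cosh y - Real.sinh y) (Set.Ici (0 : ℝ)) := by
    refine monotoneOn_of_deriv_nonneg (convex_Ici 0) ?_ ?_ ?_
    · exact fun y _ => (hd y).continuousAt.continuousWithinAt
    · exact fun y _ => (hd y).differentiableAt.differentiableWithinAt
    · intro y hy
      rw [interior_Ici] at hy
      rw [(hd y).deriv]
      exact mul_nonneg (le_of_lt hy) (Real.sinh_nonneg_iff.2 (le_of_lt hy))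
  have h := hmono (Set.mem_Ici.2 le_rfl) (Set.mem_Ici.2 hx) hx
  simp only [Real.sinh_zero, zero_mul, sub_zero] at h
  linarith

/-- the sites not hit before the block `j` -/
def PSab {N k : ℕ} (β : Fin N → ℕ) (γ : St N k) (j : ℕ) : Finset (Fin k) :=
  univ.filter (fun a => ∀ i : Fin N, β i < j → γ i ≠ some a)

section comb

variable {N k : ℕ} {β : Fin N → ℕ}

theorem PSab_anti (γ : St N k) (j : ℕ) : PSab β γ (j + 1) ⊆ PSab β γ j := by
  intro a ha
  unfold PSab at *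
  rw [mem_filter] at *
  exact ⟨mem_univ _, fun i hi => ha.2 i (by omega)⟩

theorem PSab_alive (hβ : Monotone β) (γ : St N k) (i : Fin N) :
    PSab β γ (β i + 1) ⊆ alive γ i := by
  intro a ha
  unfold PSab at ha
  unfold alive
  rw [mem_filter] at *
  refine ⟨mem_univ _, fun i' hi' => ha.2 i' ?_⟩
  have := hβ (show i' ≤ i from le_of_lt hi')
  omega

theorem PSab_hit (hβ : Monotone β) (γ : St N k) (j : ℕ) :
    ∑ i ∈ univ.filter (fun i : Fin N => β i = j), (if Hit (alive γ i) (γ i) then (1 : ℝ) else 0) ≤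
      ((PSab β γ j).card : ℝ) - ((PSab β γ (j + 1)).card : ℝ) := by
  classical
  rw [← Finset.sum_filter, Finset.sum_const, nsmul_eq_mul, mul_one]
  have h1 : ((univ.filter (fun i : Fin N => β i = j)).filter fun i : Fin N => Hit (alive γ i) (γ i)).card ≤
      ((PSab β γ j \ PSab β γ (j + 1)).image some).card := by
    refine Finset.card_le_card_of_injOn (fun i => γ i) ?_ ?_
    · intro i hi
      rw [Finset.mem_coe, mem_filter, mem_filter] at hi
      obtain ⟨⟨_, hij⟩, a, ha, hγ⟩ := hi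
      show γ i ∈ (((PSab β γ j \ PSab β γ (j + 1)).image some : Finset (Option (Fin k))) : Set _)
      rw [Finset.mem_coe, mem_image]
      refine ⟨a, ?_, hγ.symm⟩
      unfold alive at ha
      rw [mem_filter] at ha
      rw [mem_sdiff]
      unfold PSab
      rw [mem_filter, mem_filter]
      refine ⟨⟨mem_univ _, fun i' hi' => ha.2 i' ?_⟩, fun hcon => hcon.2 i (by omega) hγ⟩
      by_contra hcon
      have h2 : i ≤ i' := by
        rw [Fin.le_def]
        omega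
      have := hβ h2
      omega
    · intro i hi i' hi' hii
      rw [Finset.mem_coe, mem_filter, mem_filter] at hi hi'
      obtain ⟨_, a, ha, hγ⟩ := hi
      obtain ⟨_, a', ha', hγ'⟩ := hi'
      have hii' : γ i = γ i' := hii
      have haa : a = a' := by
        rw [hγ, hγ'] at hii'
        exact Option.some_injective _ hii'
      subst haa
      unfold alive at ha ha'
      rw [mem_filter] at ha ha'
      by_contra hne
      rcases lt_or_gt_of_ne hne with h | h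
      · exact ha'.2 i h hγ
      · exact ha.2 i' h hγ'
  have h2 := h1.trans Finset.card_image_le
  have h3 := Finset.card_sdiff_add_card_eq_card (PSab_anti (β := β) γ j)
  have h4 : (((univ.filter (fun i : Fin N => β i = j)).filter fun i : Fin N => Hit (alive γ i) (γ i)).card : ℝ) +
      ((PSab β γ (j + 1)).card : ℝ) ≤ ((PSab β γ j).card : ℝ) := by
    rw [← h3]
    push_cast
    have : (((univ.filter (fun i : Fin N => β i = j)).filter fun i : Fin N => Hit (alive γ i) (γ i)).card : ℝ) ≤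
      ((PSab β γ j \ PSab β γ (j + 1)).card : ℝ) := by exact_mod_cast h2
    linarith
  linarith

theorem PS_blk (hβ : Monotone β) (q : Fin N → ℝ) (hq : ∀ i, 0 < q i) (γ : St N k)
    (j : ℕ) {t Rj c1 Ch : ℝ} (ht : 0 < t) (hR : 0 ≤ Rj) (hc1 : 0 ≤ c1)
    (hCh : Real.cosh (j * t) ≤ Ch) :
    (j * t) * Rj * (∑ i ∈ univ.filter (fun i : Fin N => β i = j), 1 / q i) *
        ((PSab β γ (j + 1)).card : ℝ) -
      Ch * (j * t) * Rj * (1 + c1 * Ch * Rj) *
        (((PSab β γ j).card : ℝ) - ((PSab β γ (j + 1)).card : ℝ)) ≤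
      ∑ i ∈ univ.filter (fun i : Fin N => β i = j), Rj * Real.sinh (j * t) *
        (((alive γ i).card : ℝ) / q i - (1 + c1 * Rj * Real.cosh (j * t)) *
          (if Hit (alive γ i) (γ i) then 1 else 0)) := by
  obtain ⟨x, hx⟩ : ∃ x : ℝ, x = j * t := ⟨_, rfl⟩
  rw [← hx] at hCh ⊢
  have hx0 : 0 ≤ x := by
    rw [hx]
    positivity
  have hs1 : x ≤ Real.sinh x := Real.self_le_sinh_iff.2 hx0
  have hs2 : Real.sinh x ≤ x * Real.cosh x := PS_sinh hx0
  have hc : 1 ≤ Real.cosh x := Real.one_le_cosh x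
  obtain ⟨Ht, hHt⟩ : ∃ Ht : ℝ, Ht = ∑ i ∈ univ.filter (fun i : Fin N => β i = j),
    (if Hit (alive γ i) (γ i) then (1 : ℝ) else 0) := ⟨_, rfl⟩
  obtain ⟨P, hP⟩ : ∃ P : ℝ, P = ∑ i ∈ univ.filter (fun i : Fin N => β i = j),
    ((alive γ i).card : ℝ) / q i := ⟨_, rfl⟩
  obtain ⟨V, hV⟩ : ∃ V : ℝ, V = ∑ i ∈ univ.filter (fun i : Fin N => β i = j), 1 / q i := ⟨_, rfl⟩
  have hHt0 : 0 ≤ Ht := by
    rw [hHt]
    exact Finset.sum_nonneg fun i _ => by split_ifs <;> norm_num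
  have hV0 : 0 ≤ V := by
    rw [hV]
    exact Finset.sum_nonneg fun i _ => by
      have := hq i
      positivity
  have hH := PSab_hit hβ γ j
  rw [← hHt] at hH
  have hPV : ((PSab β γ (j + 1)).card : ℝ) * V ≤ P := by
    rw [hP, hV, Finset.mul_sum]
    refine Finset.sum_le_sum fun i hi => ?_
    rw [mem_filter] at hi
    have h1 := Finset.card_le_card (PSab_alive hβ γ i)
    rw [hi.2] at h1
    rw [mul_one_div]
    have h2 : ((PSab β γ (j + 1)).card : ℝ) ≤ ((alive γ i).card : ℝ) := by exact_mod_cast h1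
    exact div_le_div_of_nonneg_right h2 (hq i).le
  have hrhs : ∑ i ∈ univ.filter (fun i : Fin N => β i = j), Rj * Real.sinh x *
        (((alive γ i).card : ℝ) / q i - (1 + c1 * Rj * Real.cosh x) *
          (if Hit (alive γ i) (γ i) then 1 else 0)) =
      Rj * Real.sinh x * P - Rj * Real.sinh x * (1 + c1 * Rj * Real.cosh x) * Ht := by
    rw [hP, hHt, Finset.mul_sum, Finset.mul_sum, ← Finset.sum_sub_distrib]
    exact Finset.sum_congr rfl fun i _ => by ring
  rw [hrhs, ← hV]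
  have hcard : (0 : ℝ) ≤ ((PSab β γ (j + 1)).card : ℝ) := Nat.cast_nonneg _
  have k1 : x * Rj * V * ((PSab β γ (j + 1)).card : ℝ) ≤ Rj * Real.sinh x * P := by
    have h1 : x * Rj ≤ Rj * Real.sinh x := by
      rw [mul_comm]
      exact mul_le_mul_of_nonneg_left hs1 hR
    have h2 : x * Rj * (((PSab β γ (j + 1)).card : ℝ) * V) ≤ Rj * Real.sinh x * P :=
      mul_le_mul h1 hPV (mul_nonneg hcard hV0) (mul_nonneg hR (hx0.trans hs1))
    linarith
  have k2 : Rj * Real.sinh x * (1 + c1 * Rj * Real.cosh x) * Ht ≤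
      Ch * x * Rj * (1 + c1 * Ch * Rj) *
        (((PSab β γ j).card : ℝ) - ((PSab β γ (j + 1)).card : ℝ)) := by
    have h1 : Real.sinh x ≤ Ch * x := by
      refine hs2.trans ?_
      rw [mul_comm]
      exact mul_le_mul_of_nonneg_right hCh hx0
    have h2 : 1 + c1 * Rj * Real.cosh x ≤ 1 + c1 * Ch * Rj := by
      have := mul_le_mul_of_nonneg_left hCh (mul_nonneg hc1 hR)
      nlinarith
    have h3 : Rj * Real.sinh x ≤ Ch * x * Rj := by
      rw [mul_comm]
      exact mul_le_mul_of_nonneg_right h1 hR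
    have h4 : 0 ≤ 1 + c1 * Rj * Real.cosh x := by positivity
    have h5 : 0 ≤ Ch * x * Rj := by
      have : 0 ≤ Ch := by linarith
      positivity
    have h6 : Rj * Real.sinh x * (1 + c1 * Rj * Real.cosh x) ≤ Ch * x * Rj * (1 + c1 * Ch * Rj) :=
      mul_le_mul h3 h2 h4 h5
    exact mul_le_mul h6 hH hHt0 (mul_nonneg h5 (h4.trans h2))
  linarith

end comb

theorem PS_muP {N k : ℕ} (q : Fin N → ℝ) (hq : ∀ i, (k : ℝ) < q i) (γ : St N k) :
    0 ≤ muP q γ := by
  unfold muP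
  refine Finset.prod_nonneg fun i _ => ?_
  have h := hq i
  have h0 : (0 : ℝ) < q i := lt_of_le_of_lt (Nat.cast_nonneg k) h
  unfold mu1
  cases γ i with
  | none =>
    simp only
    rw [sub_nonneg, div_le_one h0]
    exact h.le
  | some a =>
    simp only
    positivity

theorem PS_one (h1 : S_NW1) (h2 : S_ODE) {ε : ℝ} (hε : 0 < ε) (hε1 : ε ≤ 1) :
    ∃ C : ℝ, 0 ≤ C ∧ ∀ k : ℕ, 1 ≤ k → ∃ (m n : ℕ) (η : ℝ), 0 < m ∧ m ≤ n ∧ 0 < η ∧
    ∀ (N : ℕ) (q : Fin N → ℝ) (β : Fin N → ℕ), Monotone β → (∀ i, m ≤ β i ∧ β i < n) →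
    (∀ i, (k : ℝ) < q i) →
    (∀ j, m ≤ j → j < n → Real.log (((j : ℝ) + 1) / j) - η ≤
      ∑ i ∈ univ.filter (fun i : Fin N => β i = j), 1 / q i) →
    ∀ f : St N k → ℝ, (∀ γ, 0 ≤ f γ) → Lev β n f →
      ∑ γ, muP q γ * f γ * ((alive γ N).card : ℝ) ≤
        ((1 / 2 + ε) * Real.log k + C) * ∑ γ, muP q γ * f γ := by
  obtain ⟨A, hA⟩ : ∃ A : ℝ, A = 27 / ε := ⟨_, rfl⟩
  have hA27 : 27 ≤ A := by
    rw [hA, le_div_iff₀ hε]
    linarith
  have hA0 : 0 < A := by linarith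
  have hc0 : 0 < 1 / 2 + ε / 4 := by positivity
  have hc1 : 0 < 1 / 2 + ε / 8 := by positivity
  refine ⟨(1 + (1 / A + (1 / 2 + ε / 8) / A ^ 2)) * A, by positivity, fun k hk => ?_⟩
  have hlogk : 0 ≤ Real.log k := Real.log_nonneg (by exact_mod_cast hk)
  have hden : 27 ≤ A + (1 / 2 + ε / 4) * Real.log k := by
    have : 0 ≤ (1 / 2 + ε / 4) * Real.log k := mul_nonneg hc0.le hlogk
    linarith
  obtain ⟨κ, hκ⟩ : ∃ κ : ℝ, κ = (ε / 16) / (A + (1 / 2 + ε / 4) * Real.log k) := ⟨_, rfl⟩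
  have hκ0 : 0 < κ := by
    rw [hκ]
    positivity
  have hκ1 : κ ≤ 1 := by
    rw [hκ, div_le_iff₀ (by linarith)]
    linarith
  obtain ⟨m, hm⟩ : ∃ m : ℕ, m = ⌈4 / κ⌉₊ := ⟨_, rfl⟩
  have hm0 : 0 < m := by
    rw [hm]
    exact Nat.ceil_pos.2 (by positivity)
  have hm1 : 4 / κ ≤ m := by
    rw [hm]
    exact Nat.le_ceil _
  obtain ⟨n, hn⟩ : ∃ n : ℕ, n = k * m := ⟨_, rfl⟩
  have hn0 : 0 < n := by
    rw [hn]
    exact Nat.mul_pos hk hm0
  have hmR : (0 : ℝ) < m := by exact_mod_cast hm0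
  have hnR : (0 : ℝ) < n := by exact_mod_cast hn0
  have hη0 : 0 < κ / (4 * n) := by positivity
  refine ⟨m, n, κ / (4 * n), hm0, ?_, hη0, ?_⟩
  · rw [hn]
    exact Nat.le_mul_of_pos_left _ hk
  intro N q β hβ hβr hq hh f hf hL
  have hq0 : ∀ i, 0 < q i := fun i => lt_of_le_of_lt (Nat.cast_nonneg k) (hq i)
  obtain ⟨t, ht⟩ : ∃ t : ℝ, t = κ / 2 / n := ⟨_, rfl⟩
  have ht0 : 0 < t := by
    rw [ht]
    positivity
  have hnt : (n : ℝ) * t = κ / 2 := by
    rw [ht]
    field_simp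
  obtain ⟨Ch, hCh⟩ : ∃ Ch : ℝ, Ch = Real.cosh (κ / 2) := ⟨_, rfl⟩
  have hCh1 : 1 ≤ Ch := by
    rw [hCh]
    exact Real.one_le_cosh _
  have hCh2 : Ch ^ 2 ≤ 1 + κ / 2 := by
    rw [hCh]
    exact PS_cosh hκ0 hκ1
  have hCh3 : Ch ≤ 2 := by nlinarith
  obtain ⟨R, hR⟩ : ∃ R : ℕ → ℝ, R = fun j : ℕ => 1 / (A + (1 / 2 + ε / 4) * Real.log ((j : ℝ) / m)) :=
    ⟨_, rfl⟩
  have hRj : ∀ j : ℕ, R j = 1 / (A + (1 / 2 + ε / 4) * Real.log ((j : ℝ) / m)) := fun j => by
    rw [hR]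
  have hLj : ∀ j : ℕ, m ≤ j → A ≤ A + (1 / 2 + ε / 4) * Real.log ((j : ℝ) / m) := by
    intro j hj
    have h1 : 0 ≤ Real.log ((j : ℝ) / m) := by
      apply Real.log_nonneg
      rw [le_div_iff₀ hmR, one_mul]
      exact_mod_cast hj
    have := mul_nonneg hc0.le h1
    linarith
  have hR0 : ∀ j : ℕ, m ≤ j → 0 < R j := by
    intro j hj
    rw [hRj]
    have := hLj j hj
    have : 0 < A + (1 / 2 + ε / 4) * Real.log ((j : ℝ) / m) := by linarith
    positivity
  have hRA : ∀ j : ℕ, m ≤ j → R j ≤ 1 / A := by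
    intro j hj
    rw [hRj]
    exact one_div_le_one_div_of_le hA0 (hLj j hj)
  have hcosh : ∀ j : ℕ, j < n → Real.cosh (j * t) ≤ Ch := by
    intro j hj
    rw [hCh, Real.cosh_le_cosh, abs_of_nonneg (by positivity), abs_of_nonneg (by positivity),
      ← hnt]
    exact mul_le_mul_of_nonneg_right (by exact_mod_cast hj.le) ht0.le
  have h3A : 1 / A * 3 = ε / 9 := by
    rw [hA]
    field_simp
    norm_num
  have key1 := h1 N k n q β f hq hf hL t ht0 (fun i => R (β i)) (1 / 2 + ε / 8) (ε / 9)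
    (fun i => (hR0 _ (hβr i).1).le) hc1.le (by linarith) (fun r hr hr1 => PS_log hε hε1 hr hr1)
    (fun i => by
      have e1 := hRA _ (hβr i).1
      have e2 := hR0 _ (hβr i).1
      have e3 := hcosh _ (hβr i).2
      have e4 := Real.cosh_pos (β i * t)
      show R (β i) * (Real.cosh (β i * t) + 1) ≤ ε / 9
      calc R (β i) * (Real.cosh (β i * t) + 1) ≤ 1 / A * 3 :=
            mul_le_mul e1 (by linarith) (by linarith) (by positivity)
        _ = ε / 9 := h3A)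
  have hw : ∀ γ, 0 ≤ muP q γ * f γ := fun γ => mul_nonneg (PS_muP q hq γ) (hf γ)
  obtain ⟨a, ha⟩ : ∃ a : ℕ → ℝ, a = fun j => ∑ γ, muP q γ * f γ * ((PSab β γ j).card : ℝ) :=
    ⟨_, rfl⟩
  obtain ⟨h, hhd⟩ : ∃ h : ℕ → ℝ, h = fun j => ∑ i ∈ univ.filter (fun i : Fin N => β i = j), 1 / q i :=
    ⟨_, rfl⟩
  have haj : ∀ j, a j = ∑ γ, muP q γ * f γ * ((PSab β γ j).card : ℝ) := fun j => by rw [ha]
  have hhj : ∀ j, h j = ∑ i ∈ univ.filter (fun i : Fin N => β i = j), 1 / q i := fun j => by rw [hhd]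
  -- the sum over the blocks
  have hblk : ∀ γ : St N k, ∑ j ∈ Ico m n, ((j * t) * R j * h j * ((PSab β γ (j + 1)).card : ℝ) -
      Ch * (j * t) * R j * (1 + (1 / 2 + ε / 8) * Ch * R j) *
        (((PSab β γ j).card : ℝ) - ((PSab β γ (j + 1)).card : ℝ))) ≤
      ∑ i, R (β i) * Real.sinh (β i * t) * (((alive γ i).card : ℝ) / q i -
      (1 + (1 / 2 + ε / 8) * R (β i) * Real.cosh (β i * t)) *
        (if Hit (alive γ i) (γ i) then 1 else 0)) := by
    intro γ
    rw [← Finset.sum_fiberwise_of_maps_to (s := univ) (t := Ico m n) (g := β)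
      (fun i _ => Finset.mem_Ico.2 (hβr i))]
    refine Finset.sum_le_sum fun j hj => ?_
    obtain ⟨hj1, hj2⟩ := Finset.mem_Ico.1 hj
    have e1 := PS_blk (c1 := 1 / 2 + ε / 8) hβ q hq0 γ j ht0 (hR0 j hj1).le hc1.le (hcosh j hj2)
    rw [hhj]
    refine e1.trans (le_of_eq ?_)
    refine Finset.sum_congr rfl fun i hi => ?_
    rw [(mem_filter.1 hi).2]
  have hsum : ∑ j ∈ Ico m n, ((j : ℝ) * R j * h j * a (j + 1) -
      Ch * j * R j * (1 + (1 / 2 + ε / 8) * Ch * R j) * (a j - a (j + 1))) ≤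
      n * ∑ γ, muP q γ * f γ := by
    have e1 : t * ∑ j ∈ Ico m n, ((j : ℝ) * R j * h j * a (j + 1) -
      Ch * j * R j * (1 + (1 / 2 + ε / 8) * Ch * R j) * (a j - a (j + 1))) =
      ∑ γ, muP q γ * f γ * ∑ j ∈ Ico m n, ((j * t) * R j * h j * ((PSab β γ (j + 1)).card : ℝ) -
      Ch * (j * t) * R j * (1 + (1 / 2 + ε / 8) * Ch * R j) *
        (((PSab β γ j).card : ℝ) - ((PSab β γ (j + 1)).card : ℝ))) := by
      simp_rw [Finset.mul_sum]
      rw [Finset.sum_comm]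
      refine Finset.sum_congr rfl fun j _ => ?_
      have e2 : t * ((j : ℝ) * R j * h j * a (j + 1) -
          Ch * j * R j * (1 + (1 / 2 + ε / 8) * Ch * R j) * (a j - a (j + 1))) =
          (t * j * R j * h j + t * (Ch * j * R j * (1 + (1 / 2 + ε / 8) * Ch * R j))) * a (j + 1) -
            t * (Ch * j * R j * (1 + (1 / 2 + ε / 8) * Ch * R j)) * a j := by ring
      rw [e2, haj, haj, Finset.mul_sum, Finset.mul_sum, ← Finset.sum_sub_distrib]
      exact Finset.sum_congr rfl fun γ _ => by ring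
    have e3 : t * ∑ j ∈ Ico m n, ((j : ℝ) * R j * h j * a (j + 1) -
      Ch * j * R j * (1 + (1 / 2 + ε / 8) * Ch * R j) * (a j - a (j + 1))) ≤
      t * (n * ∑ γ, muP q γ * f γ) := by
      rw [e1]
      refine (Finset.sum_le_sum fun γ _ => mul_le_mul_of_nonneg_left (hblk γ) (hw γ)).trans ?_
      refine key1.trans (le_of_eq ?_)
      ring
    exact le_of_mul_le_mul_left e3 ht0
  have hfin := h2 ε A k m n (κ / (4 * n)) Ch κ R hε hε1 (by linarith) hk hκ hm1 hn hη0.le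
    (le_of_eq (by field_simp)) hCh1 hCh2 hRj a h (∑ γ, muP q γ * f γ)
    (Finset.sum_nonneg fun γ _ => hw γ)
    (fun j => by
      rw [haj]
      exact Finset.sum_nonneg fun γ _ => mul_nonneg (hw γ) (Nat.cast_nonneg _))
    (fun j _ _ => by
      rw [haj, haj]
      refine Finset.sum_le_sum fun γ _ => mul_le_mul_of_nonneg_left ?_ (hw γ)
      exact_mod_cast Finset.card_le_card (PSab_anti γ j))
    (by
      rw [haj, Finset.mul_sum]
      refine Finset.sum_le_sum fun γ _ => ?_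
      rw [mul_comm (k : ℝ)]
      refine mul_le_mul_of_nonneg_left ?_ (hw γ)
      have := Finset.card_le_univ (PSab β γ m)
      rw [Fintype.card_fin] at this
      exact_mod_cast this)
    (fun j hj1 hj2 => by
      rw [hhj]
      exact hh j hj1 hj2) hsum
  have han : a n = ∑ γ, muP q γ * f γ * ((alive γ N).card : ℝ) := by
    rw [haj]
    refine Finset.sum_congr rfl fun γ _ => ?_
    have : PSab β γ n = alive γ N := by
      ext x
      unfold PSab alive
      rw [mem_filter, mem_filter]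
      refine ⟨fun hx => ⟨mem_univ _, fun i _ => hx.2 i (hβr i).2⟩,
        fun hx => ⟨mem_univ _, fun i _ => hx.2 i i.2⟩⟩
    rw [this]
  rw [han] at hfin
  refine hfin.trans (mul_le_mul_of_nonneg_right ?_ (Finset.sum_nonneg fun γ _ => hw γ))
  -- the constants
  have g1 : 1 / A + (1 / 2 + ε / 8) / A ^ 2 ≤ ε / 8 := by
    have e1 : 1 / A = ε / 27 := by
      rw [hA]
      field_simp
    have e2 : (1 / 2 + ε / 8) / A ^ 2 = (1 / 2 + ε / 8) * (ε / 27) ^ 2 := by
      rw [← e1]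
      field_simp
    rw [e2, e1]
    nlinarith [mul_pos hε hε]
  have g2 : (1 + (1 / A + (1 / 2 + ε / 8) / A ^ 2)) * ((1 / 2 + ε / 4) * Real.log k) ≤
      (1 / 2 + ε) * Real.log k := by
    have e1 : (1 + (1 / A + (1 / 2 + ε / 8) / A ^ 2)) * (1 / 2 + ε / 4) ≤ 1 / 2 + ε := by
      have e2 : (1 + (1 / A + (1 / 2 + ε / 8) / A ^ 2)) * (1 / 2 + ε / 4) ≤
          (1 + ε / 8) * (1 / 2 + ε / 4) := mul_le_mul_of_nonneg_right (by linarith) hc0.le
      nlinarith
    have e3 := mul_le_mul_of_nonneg_right e1 hlogk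
    linarith
  linarith

theorem t_PS (h1 : S_NW1) (h2 : S_ODE) : S_PS := by
  intro ε hε
  obtain ⟨C, hC, hk⟩ := PS_one h1 h2 (ε := min ε 1) (lt_min hε one_pos) (min_le_right _ _)
  refine ⟨C, hC, fun k hk1 => ?_⟩
  obtain ⟨m, n, η, a1, a2, a3, a4⟩ := hk k hk1
  refine ⟨m, n, η, a1, a2, a3, fun N q β b1 b2 b3 b4 f b5 b6 => ?_⟩
  refine (a4 N q β b1 b2 b3 b4 f b5 b6).trans ?_
  refine mul_le_mul_of_nonneg_right ?_
    (Finset.sum_nonneg fun γ _ => mul_nonneg (PS_muP q b3 γ) (b5 γ))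
  have hlogk : 0 ≤ Real.log k := Real.log_nonneg (by exact_mod_cast hk1)
  have := mul_le_mul_of_nonneg_right (min_le_left ε 1) hlogk
  nlinarith

end Pool.Agent.N422.NW
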