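import Pool.Agent.N422.NW.Stm

/-! Project NW (helper422), part JEN (helper427): the inequality of Jensen at the point `s` and two mean values on
the circle. -/

set_option autoImplicit false

open Complex Metric Real

namespace Pool.Agent.N422.NW

lemma JEN_ne {s : ℝ} (h0 : 0 < s) (h1 : s < 1) {w : ℂ} (hw : ‖w‖ ≤ 1) : (1 + s * w : ℂ) ≠ 0 := by
  intro h
  have h2 : (s * w : ℂ) = -1 := by linear_combination h
  have h3 : ‖(s * w : ℂ)‖ = 1 := by rw [h2, norm_neg, norm_one]
  rw [norm_mul, Complex.norm_real, Real.norm_eq_abs, abs_of_pos h0] at h3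
  nlinarith [norm_nonneg w]

lemma JEN_an {s : ℝ} (h0 : 0 < s) (h1 : s < 1) {w : ℂ} (hw : ‖w‖ ≤ 1) : AnalyticAt ℂ (psi s) w := by
  unfold psi
  have := JEN_ne h0 h1 hw
  exact AnalyticAt.div (by fun_prop) (by fun_prop) this

lemma JEN_zero (s : ℝ) : psi s 0 = s := by
  unfold psi; simp

lemma JEN_norm {s : ℝ} (h0 : 0 < s) (h1 : s < 1) {w : ℂ} (hw : ‖w‖ = 1) : ‖psi s w‖ = 1 := by
  have hne := JEN_ne h0 h1 hw.le
  unfold psi
  rw [norm_div, div_eq_one_iff_eq (norm_ne_zero_iff.2 hne)]
  have hc : w * (starRingEnd ℂ) w = 1 := by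
    rw [Complex.mul_conj, Complex.normSq_eq_norm_sq, hw]; norm_num
  have e1 : w + s = w * (starRingEnd ℂ) (1 + s * w) := by
    rw [map_add, map_mul, map_one, Complex.conj_ofReal]
    linear_combination (-(s : ℂ)) * hc
  rw [e1, norm_mul, hw, one_mul, Complex.norm_conj]

theorem t_JEN : S_JEN := by
  intro P s h0 h1 hP
  have han : AnalyticOnNhd ℂ (fun w => P.eval (psi s w)) (closedBall 0 |(1:ℝ)|) := by
    intro w hw
    rw [abs_one, mem_closedBall, dist_zero_right] at hw
    have h2 : AnalyticAt ℂ (fun z => P.eval z) (psi s w) := P.differentiable.analyticAt _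
    exact h2.fun_comp (JEN_an h0 h1 hw)
  constructor
  · refine MeromorphicOn.circleIntegrable_log_norm (f := fun w => P.eval (psi s w)) ?_
    exact han.meromorphicOn.mono_set sphere_subset_closedBall
  · have h2 := AnalyticOnNhd.circleAverage_log_norm one_ne_zero han (by
      change P.eval (psi s 0) ≠ 0
      rw [JEN_zero]; exact hP)
    rw [JEN_zero] at h2
    rw [h2]
    refine le_add_of_nonneg_left (finsum_nonneg fun u => ?_)
    have hd : 0 ≤ MeromorphicOn.divisor (fun w => P.eval (psi s w)) (closedBall 0 |(1:ℝ)|) :=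
      MeromorphicOn.AnalyticOnNhd.divisor_nonneg han
    have hdu : 0 ≤ MeromorphicOn.divisor (fun w => P.eval (psi s w)) (closedBall 0 |(1:ℝ)|) u := hd u
    by_cases hu : u ∈ closedBall (0:ℂ) |(1:ℝ)|
    · refine mul_nonneg (by exact_mod_cast hdu) ?_
      rw [abs_one, mem_closedBall, dist_zero_right] at hu
      rw [one_mul, zero_sub, norm_neg]
      rcases eq_or_ne u 0 with h4 | h4
      · rw [h4, norm_zero, inv_zero, Real.log_zero]
      · exact Real.log_nonneg ((one_le_inv₀ (norm_pos_iff.2 h4)).2 hu)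
    · rw [Function.locallyFinsuppWithin.apply_eq_zero_of_notMem _ hu, Int.cast_zero, zero_mul]

lemma JEN_avg {g : ℂ → ℂ} (hg : ∀ w : ℂ, ‖w‖ ≤ 1 → DifferentiableAt ℂ g w) :
    Real.circleAverage (fun w => (g w).re) 0 1 = (g 0).re := by
  have hc : ContinuousOn g (closedBall 0 1) := fun w hw => by
    rw [mem_closedBall, dist_zero_right] at hw
    exact (hg w hw).continuousAt.continuousWithinAt
  have h1 : Real.circleAverage g 0 1 = g 0 := by
    refine DiffContOnCl.circleAverage ⟨fun w hw => ?_, ?_⟩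
    · rw [abs_one, mem_ball, dist_zero_right] at hw
      exact (hg w hw.le).differentiableWithinAt
    · rw [abs_one, closure_ball _ one_ne_zero]
      exact hc
  have h2 := Complex.reCLM.circleAverage_comp_comm (f := g) (c := 0) (R := 1)
    ((hc.mono sphere_subset_closedBall).circleIntegrable zero_le_one)
  rw [h1] at h2
  exact h2

theorem t_AV : S_AV := by
  intro m t ht
  set s := Real.exp (-t) with hs
  have h0 : 0 < s := Real.exp_pos _
  have h1 : s < 1 := by
    rw [hs, ← Real.exp_zero]; exact Real.exp_lt_exp.2 (by linarith)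
  have hd : ∀ w : ℂ, ‖w‖ ≤ 1 → DifferentiableAt ℂ (psi s) w := fun w hw => (JEN_an h0 h1 hw).differentiableAt
  have hsm : s ^ m = Real.exp (-(m * t)) := by
    rw [hs, ← Real.exp_nat_mul]; ring_nf
  refine ⟨fun w hw => JEN_norm h0 h1 hw, ?_, ?_, ?_⟩
  · rw [continuous_iff_continuousAt]
    intro θ
    have h3 : ContinuousAt (psi s) (circleMap 0 1 θ) := (hd _ (by simp)).continuousAt
    exact ContinuousAt.comp (f := circleMap 0 1) h3 (continuous_circleMap 0 1).continuousAt
  · have h3 := JEN_avg (g := fun w => (Real.cosh (m * t) : ℂ) - psi s w ^ m) fun w hw =>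
      (differentiableAt_const _).sub ((hd w hw).pow m)
    simp only [Complex.sub_re, Complex.ofReal_re, JEN_zero] at h3
    rw [h3, ← Complex.ofReal_pow, Complex.ofReal_re, hsm, Real.sinh_eq, Real.cosh_eq]
    ring
  · have h3 := JEN_avg (g := fun w => ((Real.cosh (m * t) ^ 2 + 1 / 2 : ℝ) : ℂ) -
      ((2 * Real.cosh (m * t) : ℝ) : ℂ) * psi s w ^ m + ((1 / 2 : ℝ) : ℂ) * psi s w ^ (2 * m)) fun w hw =>
      ((differentiableAt_const _).sub (((hd w hw).pow m).const_mul _)).add (((hd w hw).pow (2 * m)).const_mul _)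
    have h4 : Real.circleAverage (fun w => (Real.cosh (m * t) - ((psi s w) ^ m).re) ^ 2) 0 1 =
        Real.circleAverage (fun w => (((Real.cosh (m * t) ^ 2 + 1 / 2 : ℝ) : ℂ) -
          ((2 * Real.cosh (m * t) : ℝ) : ℂ) * psi s w ^ m + ((1 / 2 : ℝ) : ℂ) * psi s w ^ (2 * m)).re) 0 1 := by
      refine Real.circleAverage_congr_sphere fun w hw => ?_
      rw [abs_one, mem_sphere, dist_zero_right] at hw
      have h5 : ‖psi s w ^ m‖ = 1 := by rw [norm_pow, JEN_norm h0 h1 hw, one_pow]
      have h6 : Complex.normSq (psi s w ^ m) = 1 := by rw [Complex.normSq_eq_norm_sq, h5]; norm_num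
      rw [Complex.normSq_apply] at h6
      have h7 : psi s w ^ (2 * m) = psi s w ^ m * psi s w ^ m := by rw [two_mul, pow_add]
      simp only [h7, Complex.add_re, Complex.sub_re, Complex.ofReal_re, Complex.ofReal_im, Complex.mul_re]
      linear_combination (1 / 2) * h6
    rw [h4, h3, JEN_zero]
    have e1 : ((((Real.cosh (m * t) ^ 2 + 1 / 2 : ℝ) : ℂ) - ((2 * Real.cosh (m * t) : ℝ) : ℂ) * (s : ℂ) ^ m +
        ((1 / 2 : ℝ) : ℂ) * (s : ℂ) ^ (2 * m))) = (((Real.cosh (m * t) ^ 2 + 1 / 2) -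
        (2 * Real.cosh (m * t)) * s ^ m + (1 / 2) * s ^ (2 * m) : ℝ) : ℂ) := by push_cast; ring
    rw [e1, Complex.ofReal_re, pow_mul', hsm]
    have e2 : Real.exp (-(m * t)) = Real.cosh (m * t) - Real.sinh (m * t) := by
      rw [Real.cosh_sub_sinh]
    rw [e2]
    have e3 := Real.cosh_sq (m * t)
    nlinarith [e3]

end Pool.Agent.N422.NW
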