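import Pool.Agent.N422.NW.Stm

/-! Project NW (helper422), part NW/KER (helper951): the kernel identity on the product space. -/

set_option autoImplicit false

open Finset

namespace Pool.Agent.N422.NW

/-- sums of products in which the factor `i` depends on the coordinates `≤ i` only -/
lemma ker_key {α : Type} [Fintype α] [Inhabited α] : ∀ (N : ℕ) (B : Fin N → (Fin N → α) → α → ℝ)
    (b : Fin N → ℝ), (∀ i g g' c, (∀ j, j < i → g j = g' j) → B i g c = B i g' c) →
    (∀ i g, ∑ c, B i g c = b i) → ∑ g : Fin N → α, ∏ i, B i g (g i) = ∏ i, b i := by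
  intro N
  induction N with
  | zero =>
    intro B b _ _
    simp
  | succ N ih =>
    intro B b hB hb
    rw [← (Fin.snocEquiv (fun _ : Fin (N + 1) => α)).sum_comp, Fintype.sum_prod_type]
    have h1 : ∀ (c : α) (g : Fin N → α), ∏ i, B i (Fin.snocEquiv (fun _ : Fin (N + 1) => α) (c, g))
        ((Fin.snocEquiv (fun _ : Fin (N + 1) => α) (c, g)) i) =
        (∏ i : Fin N, B i.castSucc (Fin.snoc (α := fun _ => α) g default) (g i)) *
          B (Fin.last N) (Fin.snoc (α := fun _ => α) g default) c := by
      intro c g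
      have e : (Fin.snocEquiv (fun _ : Fin (N + 1) => α) (c, g)) =
        Fin.snoc (α := fun _ => α) g c := rfl
      rw [e, Fin.prod_univ_castSucc]
      congr 1
      · refine prod_congr rfl fun i _ => ?_
        rw [Fin.snoc_castSucc]
        apply hB
        intro j hj
        have hj' : j.val < N := lt_of_lt_of_le hj (le_of_lt i.castSucc.isLt |> fun h => by
          have := i.isLt
          simp only [Fin.val_castSucc]
          omega)
        have ej : j = Fin.castSucc ⟨j.val, hj'⟩ := rfl
        rw [ej, Fin.snoc_castSucc, Fin.snoc_castSucc]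
      · rw [Fin.snoc_last]
        apply hB
        intro j hj
        have hj' : j.val < N := hj
        have ej : j = Fin.castSucc ⟨j.val, hj'⟩ := rfl
        rw [ej, Fin.snoc_castSucc, Fin.snoc_castSucc]
    have h2 : ∑ c : α, ∑ g : Fin N → α, ∏ i, B i (Fin.snocEquiv (fun _ : Fin (N + 1) => α) (c, g))
        ((Fin.snocEquiv (fun _ : Fin (N + 1) => α) (c, g)) i) =
        ∑ g : Fin N → α, (∏ i : Fin N, B i.castSucc (Fin.snoc (α := fun _ => α) g default) (g i)) *
          b (Fin.last N) := by
      rw [sum_comm]
      refine sum_congr rfl fun g _ => ?_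
      rw [sum_congr rfl fun c _ => h1 c g, ← mul_sum, hb]
    rw [h2, ← sum_mul, Fin.prod_univ_castSucc]
    congr 1
    refine ih (fun i g c => B i.castSucc (Fin.snoc (α := fun _ => α) g default) c)
      (fun i => b i.castSucc) ?_ ?_
    · intro i g g' c h
      apply hB
      intro j hj
      have hj' : j.val < N := by
        have h3 : j.val < i.val := hj
        have := i.isLt
        omega
      have ej : j = Fin.castSucc ⟨j.val, hj'⟩ := rfl
      rw [ej, Fin.snoc_castSucc, Fin.snoc_castSucc]
      exact h _ hj
    · intro i g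
      exact hb _ _

lemma ker_some {k : ℕ} (s : Finset (Fin k)) (a : Fin k) : Hit s (some a) ↔ a ∈ s := by
  unfold Hit
  constructor
  · rintro ⟨b, hb, h⟩
    rw [Option.some_inj] at h
    rwa [h]
  · intro h
    exact ⟨a, h, rfl⟩

lemma ker_none {k : ℕ} (s : Finset (Fin k)) : ¬ Hit s none := by
  rintro ⟨b, hb, h⟩
  exact absurd h (by simp)

/-- the mass -/
lemma ker_mass {k : ℕ} (s : Finset (Fin k)) (q r : ℝ) :
    ∑ c : Option (Fin k), mu1 q c * (if Hit s c then 1 - r else 1) = 1 - (s.card : ℝ) * r / q := by
  rw [Fintype.sum_option, if_neg (ker_none s)]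
  have h1 : ∀ a : Fin k, mu1 q (some a) * (if Hit s (some a) then 1 - r else 1) =
      1 / q - (if a ∈ s then r / q else 0) := by
    intro a
    by_cases h : a ∈ s
    · rw [if_pos ((ker_some s a).2 h), if_pos h]
      unfold mu1
      ring
    · rw [if_neg (fun h' => h ((ker_some s a).1 h')), if_neg h]
      unfold mu1
      ring
  rw [sum_congr rfl fun a _ => h1 a, sum_sub_distrib, sum_const, card_univ, Fintype.card_fin,
    nsmul_eq_mul, ← sum_filter, sum_const, nsmul_eq_mul]
  have h2 : univ.filter (fun a => a ∈ s) = s := by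
    ext a
    simp
  rw [h2]
  unfold mu1
  ring

/-- the local computation -/
lemma ker_local {k : ℕ} (s : Finset (Fin k)) (q r : ℝ) (hq : (k : ℝ) < q) (hr : 0 ≤ r) (hr1 : r ≤ 1)
    (c' : Option (Fin k)) :
    ∑ c : Option (Fin k), mu1 q c * ((if Hit s c then 1 - r else 1) / (1 - (s.card : ℝ) * r / q)) *
      ((1 - (s.card : ℝ) * r / q) * (if c' = c then 1 else 0) +
        r / q * (if Hit s c' then 1 else 0)) = mu1 q c' := by
  have hk : (s.card : ℝ) ≤ k := by
    have := card_le_univ s
    rw [Fintype.card_fin] at this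
    exact_mod_cast this
  have hs0 : (0 : ℝ) ≤ s.card := Nat.cast_nonneg _
  have hq0 : 0 < q := lt_of_le_of_lt (Nat.cast_nonneg k) hq
  have hD : 0 < 1 - (s.card : ℝ) * r / q := by
    rw [sub_pos, div_lt_one hq0]
    nlinarith
  set D := 1 - (s.card : ℝ) * r / q with hDdef
  have h1 : ∀ c : Option (Fin k), mu1 q c * ((if Hit s c then 1 - r else 1) / D) *
      (D * (if c' = c then 1 else 0) + r / q * (if Hit s c' then 1 else 0)) =
      (if c' = c then mu1 q c * (if Hit s c then 1 - r else 1) else 0) +
        (r / q * (if Hit s c' then 1 else 0) / D) * (mu1 q c * (if Hit s c then 1 - r else 1)) := by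
    intro c
    by_cases h : c' = c
    · rw [if_pos h, if_pos h]
      field_simp
    · rw [if_neg h, if_neg h]
      field_simp
      ring
  rw [sum_congr rfl fun c _ => h1 c, sum_add_distrib, sum_ite_eq, if_pos (mem_univ _), ← mul_sum,
    ker_mass, ← hDdef, div_mul_cancel₀ _ hD.ne']
  by_cases h : Hit s c'
  · rw [if_pos h, if_pos h]
    obtain ⟨a, -, rfl⟩ := h
    unfold mu1
    field_simp
    ring
  · rw [if_neg h, if_neg h]
    ring

theorem t_KER : S_KER := by
  intro N k q r hq hr f
  have h1 : ∀ γ : St N k, muP q γ * phi q r γ * ker q r f γ = ∑ γ' : St N k,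
      (∏ i, (mu1 (q i) (γ i) * ((if Hit (alive γ i) (γ i) then 1 - r i else 1) /
        (1 - ((alive γ i).card : ℝ) * r i / q i)) *
        ((1 - ((alive γ i).card : ℝ) * r i / q i) * (if γ' i = γ i then 1 else 0) +
          r i / q i * (if Hit (alive γ i) (γ' i) then 1 else 0)))) * f γ' := by
    intro γ
    unfold muP phi ker ker1
    rw [mul_sum]
    refine sum_congr rfl fun γ' _ => ?_
    rw [prod_mul_distrib, prod_mul_distrib]
    ring
  rw [sum_congr rfl fun γ _ => h1 γ, sum_comm]
  refine sum_congr rfl fun γ' _ => ?_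
  rw [← sum_mul]
  congr 1
  have h2 := ker_key N (fun i (γ : St N k) c => mu1 (q i) c *
    ((if Hit (alive γ i) c then 1 - r i else 1) / (1 - ((alive γ i).card : ℝ) * r i / q i)) *
        ((1 - ((alive γ i).card : ℝ) * r i / q i) * (if γ' i = c then 1 else 0) +
          r i / q i * (if Hit (alive γ i) (γ' i) then 1 else 0))) (fun i => mu1 (q i) (γ' i)) ?_ ?_
  · exact h2
  · intro i g g' c h
    have ha : alive g i = alive g' i := by
      unfold alive
      ext a
      simp only [mem_filter, mem_univ, true_and]
      constructor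
      · intro h3 j hj
        rw [← h j hj]
        exact h3 j hj
      · intro h3 j hj
        rw [h j hj]
        exact h3 j hj
    simp only [ha]
  · intro i g
    exact ker_local (alive g i) (q i) (r i) (hq i) (hr i).1 (hr i).2 (γ' i)

end Pool.Agent.N422.NW
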