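import Pool.Agent.N422.NW.Stm
import Pool.Agent.H305R2.MertensM
import Pool.Agent.H305R2.MertensE

/-!
# Sums over blocks of primes, and the product over the primes
-/

set_option autoImplicit false

namespace Pool.Agent.N422.NW

open Finset Filter Topology

/-- the floor of a power -/
theorem MER_floor {c : ℝ} (hc : 0 < c) :
    Tendsto (fun Q : ℕ => Real.log (⌊(Q : ℝ) ^ c⌋₊ : ℝ) / Real.log Q) atTop (𝓝 c) := by
  have hlog : Tendsto (fun Q : ℕ => Real.log (Q : ℝ)) atTop atTop :=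
    Real.tendsto_log_atTop.comp tendsto_natCast_atTop_atTop
  have hpow : Tendsto (fun Q : ℕ => (Q : ℝ) ^ c) atTop atTop :=
    (tendsto_rpow_atTop hc).comp tendsto_natCast_atTop_atTop
  have h1 : Tendsto (fun Q : ℕ => c - Real.log 2 / Real.log (Q : ℝ)) atTop (𝓝 c) := by
    have := (tendsto_const_nhds (x := Real.log 2)).div_atTop hlog
    simpa using (tendsto_const_nhds (x := c)).sub this
  refine tendsto_of_tendsto_of_tendsto_of_le_of_le' h1 tendsto_const_nhds ?_ ?_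
  · filter_upwards [hpow.eventually_ge_atTop 2, eventually_ge_atTop 2] with Q hQ hQ2
    have hQ0 : (0 : ℝ) < Q := by exact_mod_cast (by omega : 0 < Q)
    have hl : 0 < Real.log (Q : ℝ) := Real.log_pos (by exact_mod_cast (by omega : 1 < Q))
    have hf : (Q : ℝ) ^ c / 2 ≤ (⌊(Q : ℝ) ^ c⌋₊ : ℝ) := by
      have := Nat.lt_floor_add_one ((Q : ℝ) ^ c)
      linarith
    have h2 := Real.log_le_log (by linarith) hf
    rw [Real.log_div (by linarith) (by norm_num), Real.log_rpow hQ0] at h2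
    rw [le_div_iff₀ hl, sub_mul, div_mul_cancel₀ _ hl.ne']
    exact h2
  · filter_upwards [hpow.eventually_ge_atTop 2, eventually_ge_atTop 2] with Q hQ hQ2
    have hQ0 : (0 : ℝ) < Q := by exact_mod_cast (by omega : 0 < Q)
    have hl : 0 < Real.log (Q : ℝ) := Real.log_pos (by exact_mod_cast (by omega : 1 < Q))
    have hf : (0 : ℝ) < (⌊(Q : ℝ) ^ c⌋₊ : ℝ) := by
      have := Nat.lt_floor_add_one ((Q : ℝ) ^ c)
      linarith
    have h2 := Real.log_le_log hf (Nat.floor_le (by linarith))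
    rw [Real.log_rpow hQ0] at h2
    rw [div_le_iff₀ hl]
    exact h2

/-- the sum of `1 / p` for `p ≤ N` -/
noncomputable def MER_L (N : ℕ) : ℝ := ∑ p ∈ (Icc 1 N).filter Nat.Prime, (1 : ℝ) / p

theorem MER_lim {c d : ℝ} (hc : 0 < c) (hd : 0 < d) :
    Tendsto (fun Q : ℕ => MER_L ⌊(Q : ℝ) ^ d⌋₊ - MER_L ⌊(Q : ℝ) ^ c⌋₊) atTop
      (𝓝 (Real.log (d / c))) := by
  obtain ⟨M, hM⟩ := Pool.Agent.H305R2.mertens_inv_tendsto
  have hfl : ∀ {e : ℝ}, 0 < e → Tendsto (fun Q : ℕ => ⌊(Q : ℝ) ^ e⌋₊) atTop atTop := fun he =>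
    tendsto_nat_floor_atTop.comp ((tendsto_rpow_atTop he).comp tendsto_natCast_atTop_atTop)
  have h1 := hM.comp (hfl hd)
  have h2 := hM.comp (hfl hc)
  have h3 : Tendsto (fun Q : ℕ => Real.log ((Real.log (⌊(Q : ℝ) ^ d⌋₊ : ℝ) / Real.log Q) /
      (Real.log (⌊(Q : ℝ) ^ c⌋₊ : ℝ) / Real.log Q))) atTop (𝓝 (Real.log (d / c))) :=
    (Real.continuousAt_log (div_pos hd hc).ne').tendsto.comp
      ((MER_floor hd).div (MER_floor hc) hc.ne')
  have h4 := (h1.sub h2).add h3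
  rw [sub_self, zero_add] at h4
  refine h4.congr' ?_
  filter_upwards [(hfl hd).eventually_ge_atTop 2, (hfl hc).eventually_ge_atTop 2,
    eventually_ge_atTop 2] with Q ha hb hQ2
  have hl : 0 < Real.log (Q : ℝ) := Real.log_pos (by exact_mod_cast (by omega : 1 < Q))
  have hla : 0 < Real.log (⌊(Q : ℝ) ^ d⌋₊ : ℝ) :=
    Real.log_pos (by exact_mod_cast (by omega : 1 < ⌊(Q : ℝ) ^ d⌋₊))
  have hlb : 0 < Real.log (⌊(Q : ℝ) ^ c⌋₊ : ℝ) :=
    Real.log_pos (by exact_mod_cast (by omega : 1 < ⌊(Q : ℝ) ^ c⌋₊))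
  rw [div_div_div_cancel_right₀ hl.ne', Real.log_div hla.ne' hlb.ne']
  simp only [Function.comp_apply, MER_L]
  ring

theorem MER_le_floor {Q p : ℕ} (hQ : 1 ≤ Q) (hp : 1 ≤ p) {i : ℝ} {n : ℕ} (hn : 0 < n) :
    p ≤ ⌊(Q : ℝ) ^ (i / n)⌋₊ ↔ n * Real.log p ≤ i * Real.log Q := by
  have hQ0 : (0 : ℝ) < Q := by exact_mod_cast hQ
  have hp0 : (0 : ℝ) < p := by exact_mod_cast hp
  have hn0 : (0 : ℝ) < n := by exact_mod_cast hn
  rw [Nat.le_floor_iff (by positivity), ← Real.log_le_log_iff hp0 (by positivity),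
    Real.log_rpow hQ0, div_mul_eq_mul_div, le_div_iff₀ hn0, mul_comm]

/-- the block -/
noncomputable def MER_P (n Q j : ℕ) : Finset ℕ := ((Icc 1 Q).filter Nat.Prime).filter
  (fun p => (j : ℝ) * Real.log Q < n * Real.log p ∧ n * Real.log p ≤ ((j : ℝ) + 1) * Real.log Q)

theorem MER_sum {n Q j : ℕ} (hQ : 1 ≤ Q) (hjn : j < n) :
    ∑ p ∈ MER_P n Q j, 1 / (p : ℝ) =
      MER_L ⌊(Q : ℝ) ^ (((j : ℝ) + 1) / n)⌋₊ - MER_L ⌊(Q : ℝ) ^ ((j : ℝ) / n)⌋₊ := by
  have hn : 0 < n := by omega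
  have hn0 : (0 : ℝ) < n := by exact_mod_cast hn
  have hQ1 : (1 : ℝ) ≤ Q := by exact_mod_cast hQ
  have hQ0 : (0 : ℝ) < Q := by linarith
  have hsub : (Icc 1 ⌊(Q : ℝ) ^ ((j : ℝ) / n)⌋₊).filter Nat.Prime ⊆
      (Icc 1 ⌊(Q : ℝ) ^ (((j : ℝ) + 1) / n)⌋₊).filter Nat.Prime := by
    apply filter_subset_filter
    apply Icc_subset_Icc_right
    apply Nat.floor_mono
    apply Real.rpow_le_rpow_of_exponent_le hQ1
    gcongr
    linarith
  have heq : MER_P n Q j = (Icc 1 ⌊(Q : ℝ) ^ (((j : ℝ) + 1) / n)⌋₊).filter Nat.Prime \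
      (Icc 1 ⌊(Q : ℝ) ^ ((j : ℝ) / n)⌋₊).filter Nat.Prime := by
    ext p
    rw [MER_P, Finset.mem_filter, Finset.mem_filter, Finset.mem_sdiff, Finset.mem_filter,
      Finset.mem_filter, Finset.mem_Icc, Finset.mem_Icc, Finset.mem_Icc]
    constructor
    · rintro ⟨⟨⟨h1, h2⟩, h3⟩, h4, h5⟩
      refine ⟨⟨⟨h1, (MER_le_floor hQ h1 hn).2 h5⟩, h3⟩, ?_⟩
      rintro ⟨⟨-, h6⟩, -⟩
      exact absurd ((MER_le_floor hQ h1 hn).1 h6) (not_le.2 h4)
    · rintro ⟨⟨⟨h1, h2⟩, h3⟩, h4⟩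
      have h5 := (MER_le_floor hQ h1 hn).1 h2
      refine ⟨⟨⟨h1, ?_⟩, h3⟩, ?_, h5⟩
      · have hp0 : (0 : ℝ) < p := by exact_mod_cast h1
        have hj : ((j : ℝ) + 1) ≤ n := by exact_mod_cast hjn
        have hl : 0 ≤ Real.log Q := Real.log_nonneg hQ1
        have h6 : (n : ℝ) * Real.log p ≤ n * Real.log Q :=
          h5.trans (mul_le_mul_of_nonneg_right hj hl)
        have h7 := le_of_mul_le_mul_left h6 hn0
        have h8 := (Real.log_le_log_iff hp0 hQ0).1 h7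
        exact_mod_cast h8
      · by_contra h6
        exact h4 ⟨⟨h1, (MER_le_floor hQ h1 hn).2 (not_lt.1 h6)⟩, h3⟩
  rw [heq, MER_L, MER_L, eq_sub_iff_add_eq, sum_sdiff hsub]

theorem MER_bad {m n Q j : ℕ} {B : ℝ} (hm : 0 < m) (hmj : m ≤ j) (hjn : j < n) (hQ : 2 ≤ Q)
    (Bd : Finset ℕ) (hBd : ∀ p ∈ Bd, p.Prime)
    (hB : ∑ p ∈ Bd, Real.log p ≤ B * Real.log Q) :
    ∑ p ∈ (MER_P n Q j).filter (fun p => p ∈ Bd), 1 / (p : ℝ) ≤
      |B| * n / m * Real.exp (-((m : ℝ) / n * Real.log Q)) := by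
  have hl : 0 < Real.log (Q : ℝ) := Real.log_pos (by exact_mod_cast (by omega : 1 < Q))
  have hn0 : (0 : ℝ) < n := by exact_mod_cast (by omega : 0 < n)
  have hm0 : (0 : ℝ) < m := by exact_mod_cast hm
  set R := (MER_P n Q j).filter (fun p => p ∈ Bd) with hR
  have hlog : ∀ p ∈ R, (m : ℝ) / n * Real.log Q ≤ Real.log p := by
    intro p hp
    rw [hR, mem_filter, MER_P, mem_filter] at hp
    have h1 := hp.1.2.1
    have h2 : (m : ℝ) * Real.log Q ≤ j * Real.log Q :=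
      mul_le_mul_of_nonneg_right (by exact_mod_cast hmj) hl.le
    rw [div_mul_eq_mul_div, div_le_iff₀ hn0]
    linarith
  have hcard : (R.card : ℝ) ≤ |B| * n / m := by
    have h1 : (R.card : ℝ) * ((m : ℝ) / n * Real.log Q) ≤ ∑ p ∈ R, Real.log p := by
      rw [← nsmul_eq_mul]
      exact card_nsmul_le_sum _ _ _ hlog
    have h2 : ∑ p ∈ R, Real.log (p : ℝ) ≤ ∑ p ∈ Bd, Real.log (p : ℝ) := by
      refine sum_le_sum_of_subset_of_nonneg (fun p hp => ?_) (fun p hp _ => ?_)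
      · rw [hR, mem_filter] at hp
        exact hp.2
      · exact Real.log_nonneg (by exact_mod_cast (hBd p hp).one_lt.le)
    have h3 : (R.card : ℝ) * ((m : ℝ) / n * Real.log Q) ≤ |B| * Real.log Q :=
      (h1.trans h2).trans (hB.trans (mul_le_mul_of_nonneg_right (le_abs_self B) hl.le))
    have h4 : (R.card : ℝ) * ((m : ℝ) / n) ≤ |B| := by
      refine le_of_mul_le_mul_right ?_ hl
      linarith [h3, mul_assoc (R.card : ℝ) ((m : ℝ) / n) (Real.log Q)]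
    rw [le_div_iff₀ hm0]
    have h5 : (R.card : ℝ) * m = (R.card : ℝ) * ((m : ℝ) / n) * n := by
      field_simp
    rw [h5]
    exact mul_le_mul_of_nonneg_right h4 hn0.le
  calc ∑ p ∈ R, 1 / (p : ℝ) ≤ ∑ p ∈ R, Real.exp (-((m : ℝ) / n * Real.log Q)) := by
        refine sum_le_sum fun p hp => ?_
        have hp1 : 0 < p := by
          rw [hR, mem_filter, MER_P, mem_filter, mem_filter, mem_Icc] at hp
          exact hp.1.1.1.1
        have hp0 : (0 : ℝ) < p := by exact_mod_cast hp1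
        have h1 : 1 / (p : ℝ) = Real.exp (-Real.log p) := by
          rw [Real.exp_neg, Real.exp_log hp0, one_div]
        rw [h1]
        exact Real.exp_le_exp.2 (neg_le_neg (hlog p hp))
    _ = (R.card : ℝ) * Real.exp (-((m : ℝ) / n * Real.log Q)) := by
        rw [sum_const, nsmul_eq_mul]
    _ ≤ _ := mul_le_mul_of_nonneg_right hcard (Real.exp_pos _).le

theorem t_MER : S_MER := by
  intro m n B η hm hmn hη
  have hlog : Tendsto (fun Q : ℕ => Real.log (Q : ℝ)) atTop atTop :=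
    Real.tendsto_log_atTop.comp tendsto_natCast_atTop_atTop
  have hn0 : (0 : ℝ) < n := by exact_mod_cast (by omega : 0 < n)
  have hm0 : (0 : ℝ) < m := by exact_mod_cast hm
  have h1 : ∀ᶠ Q : ℕ in atTop, |B| * n / m * Real.exp (-((m : ℝ) / n * Real.log Q)) < η / 2 := by
    have h2 : Tendsto (fun Q : ℕ => (m : ℝ) / n * Real.log Q) atTop atTop :=
      hlog.const_mul_atTop (div_pos hm0 hn0)
    have h3 := (Real.tendsto_exp_neg_atTop_nhds_zero.comp h2).const_mul (|B| * n / m)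
    rw [mul_zero] at h3
    exact h3.eventually_lt_const (by linarith)
  have h2 : ∀ᶠ Q : ℕ in atTop, ∀ j ∈ Finset.Ico m n, Real.log (((j : ℝ) + 1) / j) - η / 2 <
      MER_L ⌊(Q : ℝ) ^ (((j : ℝ) + 1) / n)⌋₊ - MER_L ⌊(Q : ℝ) ^ ((j : ℝ) / n)⌋₊ := by
    rw [Filter.eventually_all_finset]
    intro j hj
    rw [Finset.mem_Ico] at hj
    have hj0 : (0 : ℝ) < j := by exact_mod_cast (by omega : 0 < j)
    have h3 := MER_lim (c := (j : ℝ) / n) (d := ((j : ℝ) + 1) / n) (by positivity) (by positivity)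
    rw [div_div_div_cancel_right₀ hn0.ne'] at h3
    exact h3.eventually_const_lt (by linarith)
  obtain ⟨Q0, hQ0⟩ := Filter.eventually_atTop.1 (h1.and h2)
  refine ⟨max Q0 2, fun Q hQ Bd hBd hB j hmj hjn => ?_⟩
  obtain ⟨h3, h4⟩ := hQ0 Q ((le_max_left _ _).trans hQ)
  have hQ2 : 2 ≤ Q := (le_max_right _ _).trans hQ
  have h5 := h4 j (Finset.mem_Ico.2 ⟨hmj, hjn⟩)
  rw [← MER_sum (by omega) hjn] at h5
  have h6 := MER_bad hm hmj hjn hQ2 Bd hBd hB
  have h7 := sum_filter_add_sum_filter_not (MER_P n Q j) (fun p => p ∈ Bd)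
    (fun p => 1 / (p : ℝ))
  have h8 : (MER_P n Q j).filter (fun p => ¬ p ∈ Bd) =
      ((Icc 1 Q).filter Nat.Prime).filter (fun p => p ∉ Bd ∧
        (j : ℝ) * Real.log Q < n * Real.log p ∧ n * Real.log p ≤ ((j : ℝ) + 1) * Real.log Q) := by
    rw [MER_P, filter_filter]
    apply filter_congr
    intro p _
    tauto
  rw [h8] at h7
  linarith

theorem MER_prod (Q : ℕ) : (∏ p ∈ (Icc 1 Q).filter Nat.Prime, (1 - 1 / (p : ℝ)))⁻¹ =
    ∏ p ∈ (Icc 1 Q).filter Nat.Prime, (1 - (p : ℝ)⁻¹)⁻¹ := by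
  rw [← prod_inv_distrib]
  refine prod_congr rfl fun p _ => ?_
  rw [one_div]

theorem MER_nn (Q : ℕ) : 0 ≤ (∏ p ∈ (Icc 1 Q).filter Nat.Prime, (1 - 1 / (p : ℝ)))⁻¹ := by
  refine inv_nonneg.2 (prod_nonneg fun p hp => ?_)
  rw [mem_filter] at hp
  have h1 : (1 : ℝ) ≤ p := by exact_mod_cast hp.2.one_lt.le
  have h2 : 1 / (p : ℝ) ≤ 1 := by
    rw [div_le_one (by linarith)]
    exact h1
  linarith

theorem MER_V1 : ∀ δ : ℝ, 0 < δ → ∃ Q0 : ℕ, ∀ Q : ℕ, Q0 ≤ Q →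
    (∏ p ∈ (Icc 1 Q).filter Nat.Prime, (1 - 1 / (p : ℝ)))⁻¹ ≤
      (Real.exp Real.eulerMascheroniConstant + δ) * Real.log Q := by
  intro δ hδ
  have h1 := Pool.Agent.H305R2.mertens_three.eventually_lt_const
    (show Real.exp Real.eulerMascheroniConstant < Real.exp Real.eulerMascheroniConstant + δ by
      linarith)
  obtain ⟨Q0, hQ0⟩ := Filter.eventually_atTop.1 h1
  refine ⟨max Q0 2, fun Q hQ => ?_⟩
  have h2 := hQ0 Q ((le_max_left _ _).trans hQ)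
  have hQ2 : 2 ≤ Q := (le_max_right _ _).trans hQ
  have hl : 0 < Real.log (Q : ℝ) := Real.log_pos (by exact_mod_cast (by omega : 1 < Q))
  rw [div_lt_iff₀ hl] at h2
  rw [MER_prod]
  exact h2.le

theorem t_VQ : S_VQ := by
  refine ⟨MER_V1, ?_⟩
  obtain ⟨Q0, hQ0⟩ := MER_V1 1 one_pos
  set V : ℕ → ℝ := fun Q => (∏ p ∈ (Icc 1 Q).filter Nat.Prime, (1 - 1 / (p : ℝ)))⁻¹ with hV
  have hS : 0 ≤ ∑ Q ∈ range Q0, V Q := sum_nonneg fun Q _ => MER_nn Q
  have he : 0 < Real.exp Real.eulerMascheroniConstant := Real.exp_pos _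
  refine ⟨Real.exp Real.eulerMascheroniConstant + 1 + ∑ Q ∈ range Q0, V Q, by linarith,
    fun Q hQ => ?_⟩
  have hl : 0 ≤ Real.log (Q : ℝ) := Real.log_nonneg (by exact_mod_cast hQ)
  rcases le_or_gt Q0 Q with h | h
  · refine (hQ0 Q h).trans ?_
    apply mul_le_mul <;> linarith
  · have h1 : V Q ≤ ∑ Q ∈ range Q0, V Q :=
      single_le_sum (fun Q _ => MER_nn Q) (mem_range.2 h)
    have h2 : V Q ≤ Real.exp Real.eulerMascheroniConstant + 1 + ∑ Q ∈ range Q0, V Q := by linarith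
    refine h2.trans ?_
    exact le_mul_of_one_le_right (by linarith) (by linarith)

end Pool.Agent.N422.NW
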