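import Mathlib
import Pool.Agent.N422.NW.Stm

/-!
# NW/POLY: the kernel is a polynomial after multiplication by `z ^ n`

Project NW (helper422), this file by helper849.
-/

set_option autoImplicit false

open Finset

namespace Pool.Agent.N422.NW

theorem POLY_hit {k : ℕ} (s : Finset (Fin k)) (a : Fin k) : Hit s (some a) ↔ a ∈ s := by
  unfold Hit
  constructor
  · rintro ⟨b, hb, h⟩
    rw [Option.some.inj h]
    exact hb
  · intro h
    exact ⟨a, h, rfl⟩

theorem POLY_sum1 {K : Type} [Field K] {N k : ℕ} (q r : Fin N → K) (γ : St N k) (i : Fin N) :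
    ∑ c : Option (Fin k), ker1 q r γ i c = 1 := by
  unfold ker1
  have h : ∑ c : Option (Fin k), (if Hit (alive γ i) c then (1 : K) else 0) =
      ((alive γ i).card : K) := by
    rw [Fintype.sum_option]
    have h0 : ¬ Hit (alive γ i) none := by
      rintro ⟨a, _, h⟩
      cases h
    rw [if_neg h0, zero_add]
    simp only [POLY_hit]
    rw [Finset.sum_ite_mem, Finset.univ_inter, Finset.sum_const, nsmul_eq_mul, mul_one]
  rw [Finset.sum_add_distrib, ← Finset.mul_sum, ← Finset.mul_sum, h, Finset.sum_ite_eq',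
    if_pos (Finset.mem_univ _)]
  ring

/-- the kernel on functions which depend only on `S` -/
theorem POLY_ker {K : Type} [Field K] {N k : ℕ} (q r : Fin N → K) (γ : St N k)
    (S : Finset (Fin N)) (g : St N k → K)
    (hg : ∀ γ γ' : St N k, (∀ i ∈ S, γ i = γ' i) → g γ = g γ') :
    ker q r g γ = ∑ δ ∈ Fintype.piFinset
        (fun i => if i ∈ S then (univ : Finset (Option (Fin k))) else {none}),
      g δ * ∏ i ∈ S, ker1 q r γ i (δ i) := by
  classical
  set D : Finset (St N k) := Fintype.piFinset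
    (fun i => if i ∈ S then (univ : Finset (Option (Fin k))) else {none}) with hD
  have h1 : ∀ γ' : St N k, g γ' = ∑ δ ∈ D, g δ * ∏ i, (if i ∈ S then (if γ' i = δ i then (1 : K) else 0)
      else 1) := by
    intro γ'
    set δ0 : St N k := fun i => if i ∈ S then γ' i else none with hδ0
    have hδD : δ0 ∈ D := by
      rw [hD, Fintype.mem_piFinset]
      intro i
      by_cases hi : i ∈ S
      · rw [if_pos hi]; exact Finset.mem_univ _
      · rw [if_neg hi, hδ0, Finset.mem_singleton]
        simp only [if_neg hi]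
    rw [Finset.sum_eq_single_of_mem δ0 hδD]
    · have e1 : g γ' = g δ0 := by
        apply hg
        intro i hi
        rw [hδ0]
        simp only [if_pos hi]
      rw [e1, Finset.prod_eq_one, mul_one]
      intro i _
      by_cases hi : i ∈ S
      · rw [if_pos hi, if_pos]
        rw [hδ0]
        simp only [if_pos hi]
      · rw [if_neg hi]
    · intro δ hδ hne
      have h2 : ∃ i ∈ S, γ' i ≠ δ i := by
        by_contra hcon
        push Not at hcon
        apply hne
        funext i
        rw [hδ0]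
        by_cases hi : i ∈ S
        · simp only [if_pos hi]
          exact (hcon i hi).symm
        · simp only [if_neg hi]
          rw [hD, Fintype.mem_piFinset] at hδ
          have h3 := hδ i
          rw [if_neg hi, Finset.mem_singleton] at h3
          exact h3
      obtain ⟨i, hi, hne'⟩ := h2
      rw [Finset.prod_eq_zero (Finset.mem_univ i), mul_zero]
      rw [if_pos hi, if_neg hne']
  have h2 : ∀ δ : St N k, ∑ γ' : St N k, (∏ i, ker1 q r γ i (γ' i)) *
      ∏ i, (if i ∈ S then (if γ' i = δ i then (1 : K) else 0) else 1) =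
      ∏ i ∈ S, ker1 q r γ i (δ i) := by
    intro δ
    have h3 : ∀ γ' : St N k, (∏ i, ker1 q r γ i (γ' i)) *
        ∏ i, (if i ∈ S then (if γ' i = δ i then (1 : K) else 0) else 1) =
        ∏ i, (ker1 q r γ i (γ' i) * (if i ∈ S then (if γ' i = δ i then (1 : K) else 0) else 1)) :=
      fun γ' => Finset.prod_mul_distrib.symm
    have h4 := Finset.prod_univ_sum (fun _ : Fin N => (univ : Finset (Option (Fin k))))
      (fun i (c : Option (Fin k)) => ker1 q r γ i c *
        (if i ∈ S then (if c = δ i then (1 : K) else 0) else 1))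
    rw [Fintype.piFinset_univ] at h4
    rw [Finset.sum_congr rfl fun γ' _ => h3 γ', ← h4]
    have h5 : ∀ i, ∑ c : Option (Fin k), ker1 q r γ i c *
        (if i ∈ S then (if c = δ i then (1 : K) else 0) else 1) =
        if i ∈ S then ker1 q r γ i (δ i) else 1 := by
      intro i
      by_cases hi : i ∈ S
      · simp only [if_pos hi, mul_ite, mul_one, mul_zero]
        rw [Finset.sum_ite_eq', if_pos (Finset.mem_univ _)]
      · simp only [if_neg hi, mul_one]
        exact POLY_sum1 q r γ i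
    rw [Finset.prod_congr rfl fun i _ => h5 i, Finset.prod_ite_mem, Finset.univ_inter]
  unfold ker
  rw [Finset.sum_congr rfl fun γ' _ => by rw [h1 γ', Finset.mul_sum], Finset.sum_comm]
  refine Finset.sum_congr rfl fun δ _ => ?_
  rw [← h2 δ, Finset.mul_sum]
  refine Finset.sum_congr rfl fun γ' _ => ?_
  ring

open Polynomial in
/-- the local factor -/
theorem POLY_loc {N k : ℕ} (q c R : Fin N → ℝ) (ν : Fin N → ℕ) (γ : St N k) (i : Fin N)
    (x : Option (Fin k)) : ∃ p : ℂ[X], p.natDegree ≤ 2 * ν i ∧ ∀ z : ℂ, z ≠ 0 →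
      p.eval z = z ^ ν i * ker1 (fun i => (q i : ℂ))
        (fun i => (R i : ℂ) * ((c i : ℂ) - (z ^ ν i + (z⁻¹) ^ ν i) / 2)) γ i x := by
  set a : ℂ := if x = γ i then 1 else 0 with ha
  set b : ℂ := if Hit (alive γ i) x then 1 else 0 with hb
  set B : ℂ := (-((alive γ i).card : ℂ) * a + b) / (q i : ℂ) with hB
  refine ⟨C a * X ^ ν i + C (B * (R i : ℂ)) * (C (c i : ℂ) * X ^ ν i -
    C (1 / 2) * (X ^ (2 * ν i) + C 1)), ?_, ?_⟩
  · have h1 : (X ^ ν i : ℂ[X]).natDegree ≤ 2 * ν i := by
      rw [natDegree_X_pow]; omega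
    have h2 : (X ^ (2 * ν i) : ℂ[X]).natDegree ≤ 2 * ν i := by
      rw [natDegree_X_pow]
    refine natDegree_add_le_of_degree_le ((natDegree_C_mul_le _ _).trans h1) ?_
    refine (natDegree_C_mul_le _ _).trans ?_
    refine (natDegree_sub_le_of_le ((natDegree_C_mul_le _ _).trans h1) ?_).trans (max_self _).le
    refine (natDegree_C_mul_le _ _).trans ?_
    refine natDegree_add_le_of_degree_le h2 ?_
    rw [natDegree_C]
    exact Nat.zero_le _
  · intro z hz
    have h3 : z ^ ν i * (z⁻¹) ^ ν i = 1 := by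
      rw [← mul_pow, mul_inv_cancel₀ hz, one_pow]
    unfold ker1
    beta_reduce
    rw [← ha, ← hb]
    simp only [eval_add, eval_mul, eval_C, eval_pow, eval_X, eval_sub]
    have h4 : z ^ ν i * ((1 - ((alive γ i).card : ℂ) *
        ((R i : ℂ) * ((c i : ℂ) - (z ^ ν i + (z⁻¹) ^ ν i) / 2)) / (q i : ℂ)) * a +
        (R i : ℂ) * ((c i : ℂ) - (z ^ ν i + (z⁻¹) ^ ν i) / 2) / (q i : ℂ) * b) =
        a * z ^ ν i + B * (R i : ℂ) * ((c i : ℂ) * z ^ ν i -
          1 / 2 * (z ^ ν i * z ^ ν i + z ^ ν i * (z⁻¹) ^ ν i)) := by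
      rw [hB]
      ring
    rw [h4, h3, ← pow_add, ← two_mul]

theorem t_POLY : S_POLY := by
  classical
  intro N k n q ν f hf c R γ
  obtain ⟨m, S, g, hS, hg, hfg⟩ := hf
  choose p hp1 hp2 using fun (i : Fin N) (x : Option (Fin k)) => POLY_loc q c R ν γ i x
  refine ⟨∑ x : Fin m, ∑ δ ∈ Fintype.piFinset
        (fun i => if i ∈ S x then (univ : Finset (Option (Fin k))) else {none}),
      Polynomial.C (g x δ : ℂ) * (Polynomial.X ^ (n - ∑ i ∈ S x, ν i) *
        ∏ i ∈ S x, p i (δ i)), ?_, ?_⟩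
  · refine Polynomial.natDegree_sum_le_of_forall_le _ _ fun x _ => ?_
    refine Polynomial.natDegree_sum_le_of_forall_le _ _ fun δ _ => ?_
    refine (Polynomial.natDegree_C_mul_le _ _).trans ?_
    refine Polynomial.natDegree_mul_le.trans ?_
    rw [Polynomial.natDegree_X_pow]
    have h1 : (∏ i ∈ S x, p i (δ i)).natDegree ≤ ∑ i ∈ S x, 2 * ν i :=
      (Polynomial.natDegree_prod_le _ _).trans (Finset.sum_le_sum fun i _ => hp1 i (δ i))
    rw [← Finset.mul_sum] at h1
    have h2 := hS x
    omega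
  · intro z hz
    have h1 : ker (fun i => (q i : ℂ))
        (fun i => (R i : ℂ) * ((c i : ℂ) - (z ^ ν i + (z⁻¹) ^ ν i) / 2))
        (fun γ' => (f γ' : ℂ)) γ = ∑ x : Fin m, ker (fun i => (q i : ℂ))
        (fun i => (R i : ℂ) * ((c i : ℂ) - (z ^ ν i + (z⁻¹) ^ ν i) / 2))
        (fun γ' => (g x γ' : ℂ)) γ := by
      unfold ker
      rw [Finset.sum_comm]
      refine Finset.sum_congr rfl fun γ' _ => ?_
      rw [← Finset.mul_sum]
      beta_reduce
      rw [hfg γ']
      push_cast
      rfl
    rw [h1, Finset.mul_sum, Polynomial.eval_finsetSum]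
    refine Finset.sum_congr rfl fun x _ => ?_
    rw [POLY_ker _ _ γ (S x) (fun γ' => (g x γ' : ℂ)) (fun γ₁ γ₂ h => by
      rw [hg x γ₁ γ₂ h]), Finset.mul_sum, Polynomial.eval_finsetSum]
    refine Finset.sum_congr rfl fun δ _ => ?_
    rw [Polynomial.eval_mul, Polynomial.eval_C, Polynomial.eval_mul, Polynomial.eval_pow,
      Polynomial.eval_X, Polynomial.eval_prod, Finset.prod_congr rfl fun i _ => hp2 i (δ i) z hz,
      Finset.prod_mul_distrib, Finset.prod_pow_eq_pow_sum]
    have h2 : z ^ n = z ^ (n - ∑ i ∈ S x, ν i) * z ^ (∑ i ∈ S x, ν i) := by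
      rw [← pow_add, Nat.sub_add_cancel (hS x)]
    rw [h2]
    ring

end Pool.Agent.N422.NW
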