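import Pool.Agent.N422.NW.Stm

/-! Project NW, part CORE (helper92): the main inequality -/

set_option autoImplicit false

open Finset

namespace Pool.Agent.N422.NW

theorem CORE_alive_card {N k : ℕ} (γ : St N k) (i : ℕ) : (alive γ i).card ≤ k := by
  unfold alive
  refine (Finset.card_filter_le _ _).trans ?_
  rw [Finset.card_univ, Fintype.card_fin]

theorem CORE_coef {N k : ℕ} (q r : Fin N → ℝ) (hq : ∀ i, (k : ℝ) < q i)
    (hr : ∀ i, 0 ≤ r i ∧ r i < 1) (γ : St N k) (i : Fin N) :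
    0 < 1 - ((alive γ i).card : ℝ) * r i / q i := by
  have hk : (0 : ℝ) ≤ k := Nat.cast_nonneg k
  have hq0 : 0 < q i := lt_of_le_of_lt hk (hq i)
  have hc : ((alive γ i).card : ℝ) ≤ k := by exact_mod_cast CORE_alive_card γ i
  have h1 : ((alive γ i).card : ℝ) * r i / q i < 1 := by
    rw [div_lt_one hq0]
    have h2 : ((alive γ i).card : ℝ) * r i ≤ k * 1 :=
      mul_le_mul hc (hr i).2.le (hr i).1 hk
    linarith [hq i]
  linarith

theorem CORE_ker1_nonneg {N k : ℕ} (q r : Fin N → ℝ) (hq : ∀ i, (k : ℝ) < q i)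
    (hr : ∀ i, 0 ≤ r i ∧ r i < 1) (γ : St N k) (i : Fin N) (c : Option (Fin k)) :
    0 ≤ ker1 q r γ i c := by
  have hk : (0 : ℝ) ≤ k := Nat.cast_nonneg k
  have hq0 : 0 < q i := lt_of_le_of_lt hk (hq i)
  have h1 := CORE_coef q r hq hr γ i
  have h2 : 0 ≤ r i / q i := div_nonneg (hr i).1 hq0.le
  unfold ker1
  apply add_nonneg
  · apply mul_nonneg h1.le; split_ifs <;> norm_num
  · apply mul_nonneg h2; split_ifs <;> norm_num

theorem CORE_ker1_self {N k : ℕ} (q r : Fin N → ℝ) (hq : ∀ i, (k : ℝ) < q i)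
    (hr : ∀ i, 0 ≤ r i ∧ r i < 1) (γ : St N k) (i : Fin N) :
    0 < ker1 q r γ i (γ i) := by
  have hk : (0 : ℝ) ≤ k := Nat.cast_nonneg k
  have hq0 : 0 < q i := lt_of_le_of_lt hk (hq i)
  have h1 := CORE_coef q r hq hr γ i
  have h2 : 0 ≤ r i / q i := div_nonneg (hr i).1 hq0.le
  unfold ker1
  rw [if_pos rfl, mul_one]
  apply add_pos_of_pos_of_nonneg h1
  apply mul_nonneg h2; split_ifs <;> norm_num

theorem CORE_ker_nonneg {N k : ℕ} (q r : Fin N → ℝ) (hq : ∀ i, (k : ℝ) < q i)
    (hr : ∀ i, 0 ≤ r i ∧ r i < 1) (f : St N k → ℝ) (hf : ∀ γ, 0 ≤ f γ) (γ : St N k) :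
    0 ≤ ker q r f γ := by
  unfold ker
  apply Finset.sum_nonneg
  intro γ' _
  exact mul_nonneg (Finset.prod_nonneg (fun i _ => CORE_ker1_nonneg q r hq hr γ i _)) (hf γ')

theorem CORE_ker_pos {N k : ℕ} (q r : Fin N → ℝ) (hq : ∀ i, (k : ℝ) < q i)
    (hr : ∀ i, 0 ≤ r i ∧ r i < 1) (f : St N k → ℝ) (hf : ∀ γ, 0 ≤ f γ) (γ : St N k)
    (hg : 0 < f γ) : 0 < ker q r f γ := by
  unfold ker
  apply Finset.sum_pos'
  · intro γ' _
    exact mul_nonneg (Finset.prod_nonneg (fun i _ => CORE_ker1_nonneg q r hq hr γ i _)) (hf γ')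
  · exact ⟨γ, Finset.mem_univ _, mul_pos (Finset.prod_pos
      (fun i _ => CORE_ker1_self q r hq hr γ i)) hg⟩

theorem CORE_ker_zero {N k : ℕ} (q : Fin N → ℂ) (f : St N k → ℂ) (γ : St N k) :
    ker q (fun _ => 0) f γ = f γ := by
  unfold ker ker1
  rw [Finset.sum_eq_single γ]
  · simp
  · intro γ' _ hne
    have : ∃ i, γ' i ≠ γ i := by
      by_contra hcon
      push Not at hcon
      exact hne (funext hcon)
    obtain ⟨i, hi⟩ := this
    rw [Finset.prod_eq_zero (Finset.mem_univ i), zero_mul]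
    simp [hi]
  · intro h; exact absurd (Finset.mem_univ _) h

theorem CORE_ker_cast {N k : ℕ} (q r : Fin N → ℝ) (f : St N k → ℝ) (γ : St N k) :
    ker (fun i => (q i : ℂ)) (fun i => (r i : ℂ)) (fun γ' => (f γ' : ℂ)) γ =
      ((ker q r f γ : ℝ) : ℂ) := by
  unfold ker ker1
  rw [Complex.ofReal_sum]
  apply Finset.sum_congr rfl
  intro γ' _
  rw [Complex.ofReal_mul, Complex.ofReal_prod]
  congr 1
  apply Finset.prod_congr rfl
  intro i _
  split_ifs <;> push_cast <;> ring

theorem CORE_phi_pos {N k : ℕ} (q r : Fin N → ℝ) (hq : ∀ i, (k : ℝ) < q i)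
    (hr : ∀ i, 0 ≤ r i ∧ r i < 1) (γ : St N k) : 0 < phi q r γ := by
  unfold phi
  apply Finset.prod_pos
  intro i _
  apply div_pos _ (CORE_coef q r hq hr γ i)
  split_ifs
  · linarith [(hr i).2]
  · norm_num

theorem CORE_log_phi {N k : ℕ} (q r : Fin N → ℝ) (hq : ∀ i, (k : ℝ) < q i)
    (hr : ∀ i, 0 ≤ r i ∧ r i < 1) (c1 : ℝ)
    (hc : ∀ i, -Real.log (1 - r i) ≤ r i + c1 * r i ^ 2) (γ : St N k) :
    ∑ i : Fin N, (((alive γ i).card : ℝ) * r i / q i -
      (if Hit (alive γ i) (γ i) then r i + c1 * r i ^ 2 else 0)) ≤ Real.log (phi q r γ) := by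
  unfold phi
  rw [Real.log_prod]
  · apply Finset.sum_le_sum
    intro i _
    have h1 := CORE_coef q r hq hr γ i
    have h2 : Real.log (1 - ((alive γ i).card : ℝ) * r i / q i) ≤
        -(((alive γ i).card : ℝ) * r i / q i) := by
      have := Real.log_le_sub_one_of_pos h1
      linarith
    split_ifs with h
    · rw [Real.log_div (by linarith [(hr i).2]) h1.ne']
      linarith [hc i]
    · rw [Real.log_div one_ne_zero h1.ne', Real.log_one]
      linarith
  · intro i _
    apply ne_of_gt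
    apply div_pos _ (CORE_coef q r hq hr γ i)
    split_ifs
    · linarith [(hr i).2]
    · norm_num

theorem CORE_point (f G ph LB : ℝ) (hf : 0 ≤ f) (hG : 0 ≤ G) (hG' : 0 < f → 0 < G) (hp : 0 < ph)
    (hL : LB ≤ Real.log ph) : f * Real.log G + f * LB ≤ f * Real.log f - f + G * ph := by
  rcases hf.eq_or_lt with h | h
  · rw [← h]
    have := mul_nonneg hG hp.le
    simpa using this
  · have hGp := hG' h
    have h1 : Real.log (G * ph / f) ≤ G * ph / f - 1 :=
      Real.log_le_sub_one_of_pos (by positivity)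
    rw [Real.log_div (by positivity) h.ne', Real.log_mul hGp.ne' hp.ne'] at h1
    have h2 := mul_le_mul_of_nonneg_left h1 hf
    have h3 : f * (G * ph / f - 1) = G * ph - f := by
      field_simp
    rw [h3] at h2
    have h4 := mul_le_mul_of_nonneg_left hL hf
    nlinarith

theorem CORE_mu_nonneg {N k : ℕ} (q : Fin N → ℝ) (hq : ∀ i, (k : ℝ) < q i) (γ : St N k) :
    0 ≤ muP q γ := by
  unfold muP
  apply Finset.prod_nonneg
  intro i _
  have hk : (0 : ℝ) ≤ k := Nat.cast_nonneg k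
  have hq0 : 0 < q i := lt_of_le_of_lt hk (hq i)
  unfold mu1
  split
  · positivity
  · have : (k : ℝ) / q i < 1 := by rw [div_lt_one hq0]; exact hq i
    linarith

theorem CORE_ca_lin (a : ℂ → ℝ) (h1 : CircleIntegrable a 0 1)
    (h2 : CircleIntegrable (fun w => a w ^ 2) 0 1) (α β : ℝ) :
    CircleIntegrable (fun w => α * a w + β * a w ^ 2) 0 1 ∧
    Real.circleAverage (fun w => α * a w + β * a w ^ 2) 0 1 =
      α * Real.circleAverage a 0 1 + β * Real.circleAverage (fun w => a w ^ 2) 0 1 := by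
  have i1 : CircleIntegrable (fun w => α * a w) 0 1 := by
    have := h1.const_smul (a := α)
    exact this
  have i2 : CircleIntegrable (fun w => β * a w ^ 2) 0 1 := by
    have := h2.const_smul (a := β)
    exact this
  refine ⟨i1.add i2, ?_⟩
  rw [Real.circleAverage_fun_add i1 i2]
  congr 1
  · exact Real.circleAverage_fun_smul (a := α) (f := a)
  · exact Real.circleAverage_fun_smul (a := β) (f := fun w => a w ^ 2)

theorem t_NW1 (hK : S_KER) (hP : S_POLY) (hJ : S_JEN) (hA : S_AV) : S_NW1 := by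
  intro N k n q ν f hq hf hLev t ht R c1 r0 hR hc1 hr0 hlog hRr
  set s : ℝ := Real.exp (-t) with hs
  have hs0 : 0 < s := Real.exp_pos _
  have hs1 : s < 1 := by
    have h0 := Real.exp_lt_exp.mpr (show -t < 0 by linarith)
    rwa [Real.exp_zero] at h0
  -- the rates
  set a : Fin N → ℂ → ℝ := fun i w => Real.cosh (ν i * t) - ((psi s w) ^ ν i).re with ha
  set ρ : ℂ → Fin N → ℝ := fun w i => R i * a i w with hρ
  have hpsi : ∀ w : ℂ, ‖w‖ = 1 → ‖psi s w‖ = 1 := (hA 0 t ht).1
  have hcont : Continuous (fun θ : ℝ => psi s (circleMap 0 1 θ)) := (hA 0 t ht).2.1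
  have hρb : ∀ w : ℂ, ‖w‖ = 1 → ∀ i, 0 ≤ ρ w i ∧ ρ w i ≤ r0 := by
    intro w hw i
    have h1 : |((psi s w) ^ ν i).re| ≤ 1 := by
      refine (Complex.abs_re_le_norm _).trans ?_
      rw [norm_pow, hpsi w hw, one_pow]
    have h2 := Real.one_le_cosh (ν i * t)
    rw [abs_le] at h1
    have h3 : 0 ≤ a i w := by simp only [ha]; linarith [h1.2]
    have h4 : a i w ≤ Real.cosh (ν i * t) + 1 := by simp only [ha]; linarith [h1.1]
    exact ⟨mul_nonneg (hR i) h3, (mul_le_mul_of_nonneg_left h4 (hR i)).trans (hRr i)⟩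
  have hρ1 : ∀ w : ℂ, ‖w‖ = 1 → ∀ i, 0 ≤ ρ w i ∧ ρ w i < 1 := fun w hw i =>
    ⟨(hρb w hw i).1, lt_of_le_of_lt (hρb w hw i).2 hr0⟩
  -- the polynomials
  choose P hPd hPe using fun γ => hP N k n q ν f hLev (fun i => Real.cosh (ν i * t)) R γ
  have hPs : ∀ γ, (P γ).eval (s : ℂ) = (s : ℂ) ^ n * (f γ : ℂ) := by
    intro γ
    rw [hPe γ s (by exact_mod_cast hs0.ne')]
    congr 1
    have h0 : (fun i : Fin N => (R i : ℂ) * ((Real.cosh (ν i * t) : ℝ) -
        ((s : ℂ) ^ ν i + ((s : ℂ)⁻¹) ^ ν i) / 2)) = fun _ => 0 := by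
      funext i
      have e1 : s ^ ν i = Real.exp (-(ν i * t)) := by
        rw [hs, ← Real.exp_nat_mul]
        congr 1; ring
      have e2 : (s⁻¹) ^ ν i = Real.exp (ν i * t) := by
        rw [hs, ← Real.exp_neg, ← Real.exp_nat_mul]
        congr 1; ring
      have e3 : ((s : ℂ) ^ ν i + ((s : ℂ)⁻¹) ^ ν i) / 2 = ((Real.cosh (ν i * t) : ℝ) : ℂ) := by
        rw [Real.cosh_eq, ← e1, ← e2]
        push_cast
        ring
      rw [e3]; ring
    rw [h0]
    exact CORE_ker_zero _ _ _
  have hPw : ∀ γ w, ‖w‖ = 1 → (P γ).eval (psi s w) =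
      (psi s w) ^ n * ((ker q (ρ w) f γ : ℝ) : ℂ) := by
    intro γ w hw
    have hz := hpsi w hw
    have hz0 : psi s w ≠ 0 := by
      intro h0; rw [h0, norm_zero] at hz; exact zero_ne_one hz
    rw [hPe γ _ hz0]
    congr 1
    rw [← CORE_ker_cast]
    congr 1
    funext i
    have hinv : (psi s w)⁻¹ = (starRingEnd ℂ) (psi s w) := by
      rw [Complex.inv_def, Complex.normSq_eq_norm_sq, hz]
      simp
    have e3 : ((psi s w) ^ ν i + ((psi s w)⁻¹) ^ ν i) / 2 = ((((psi s w) ^ ν i).re : ℝ) : ℂ) := by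
      rw [hinv, ← map_pow, Complex.add_conj]
      push_cast
      ring
    rw [e3]
    simp only [hρ, ha]
    push_cast
    ring
  have hPn : ∀ γ w, ‖w‖ = 1 → ‖(P γ).eval (psi s w)‖ = ker q (ρ w) f γ := by
    intro γ w hw
    rw [hPw γ w hw, norm_mul, norm_pow, hpsi w hw, one_pow, one_mul, Complex.norm_real,
      Real.norm_of_nonneg (CORE_ker_nonneg q (ρ w) hq (hρ1 w hw) f hf γ)]
  -- Jensen
  have hJen : ∀ γ, 0 < f γ →
      CircleIntegrable (fun w => Real.log ‖(P γ).eval (psi s w)‖) 0 1 ∧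
      Real.log (f γ) - n * t ≤
        Real.circleAverage (fun w => Real.log ‖(P γ).eval (psi s w)‖) 0 1 := by
    intro γ hγ
    have hne : (P γ).eval (s : ℂ) ≠ 0 := by
      rw [hPs γ]
      exact mul_ne_zero (pow_ne_zero _ (by exact_mod_cast hs0.ne')) (by exact_mod_cast hγ.ne')
    obtain ⟨h1, h2⟩ := hJ (P γ) s hs0 hs1 hne
    refine ⟨h1, le_trans (le_of_eq ?_) h2⟩
    rw [hPs γ, norm_mul, norm_pow, Complex.norm_real, Complex.norm_real,
      Real.norm_of_nonneg hs0.le, Real.norm_of_nonneg hγ.le,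
      Real.log_mul (by positivity) hγ.ne', Real.log_pow, hs, Real.log_exp]
    ring
  -- the lower bound for the density
  set α : St N k → Fin N → ℝ := fun γ i => ((alive γ i).card : ℝ) * R i / q i -
    (if Hit (alive γ i) (γ i) then R i else 0) with hα
  set β : St N k → Fin N → ℝ := fun γ i =>
    -(if Hit (alive γ i) (γ i) then c1 * R i ^ 2 else 0) with hβ
  have hLB : ∀ γ w, ‖w‖ = 1 → ∑ i, (α γ i * a i w + β γ i * a i w ^ 2) ≤
      Real.log (phi q (ρ w) γ) := by
    intro γ w hw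
    refine le_trans (le_of_eq ?_) (CORE_log_phi q (ρ w) hq (hρ1 w hw) c1
      (fun i => hlog _ (hρb w hw i).1 (hρb w hw i).2) γ)
    apply Finset.sum_congr rfl
    intro i _
    simp only [hα, hβ, hρ]
    split_ifs <;> ring
  -- the pointwise inequality
  have hpt : ∀ w : ℂ, ‖w‖ = 1 →
      ∑ γ, muP q γ * (f γ * Real.log ‖(P γ).eval (psi s w)‖) +
        ∑ γ, muP q γ * f γ * ∑ i, (α γ i * a i w + β γ i * a i w ^ 2) ≤
      ∑ γ, muP q γ * (f γ * Real.log (f γ)) := by
    intro w hw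
    have hk := hK N k q (ρ w) hq (fun i => ⟨(hρ1 w hw i).1, (hρ1 w hw i).2.le⟩) f
    have h1 : ∑ γ, (muP q γ * (f γ * Real.log ‖(P γ).eval (psi s w)‖) +
        muP q γ * f γ * ∑ i, (α γ i * a i w + β γ i * a i w ^ 2)) ≤
        ∑ γ, (muP q γ * (f γ * Real.log (f γ)) - muP q γ * f γ +
          muP q γ * phi q (ρ w) γ * ker q (ρ w) f γ) := by
      apply Finset.sum_le_sum
      intro γ _
      rw [hPn γ w hw]
      have h2 := CORE_point (f γ) (ker q (ρ w) f γ) (phi q (ρ w) γ) _ (hf γ)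
        (CORE_ker_nonneg q (ρ w) hq (hρ1 w hw) f hf γ)
        (CORE_ker_pos q (ρ w) hq (hρ1 w hw) f hf γ)
        (CORE_phi_pos q (ρ w) hq (hρ1 w hw) γ) (hLB γ w hw)
      have h3 := mul_le_mul_of_nonneg_left h2 (CORE_mu_nonneg q hq γ)
      linarith
    rw [Finset.sum_add_distrib, Finset.sum_add_distrib, Finset.sum_sub_distrib, hk] at h1
    linarith
  -- integrability
  have hai : ∀ i, CircleIntegrable (a i) 0 1 := by
    intro i
    apply Continuous.intervalIntegrable
    have : Continuous (fun θ : ℝ => Real.cosh (ν i * t) - ((psi s (circleMap 0 1 θ)) ^ ν i).re) :=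
      continuous_const.sub (Complex.continuous_re.comp (hcont.pow _))
    exact this
  have hai2 : ∀ i, CircleIntegrable (fun w => a i w ^ 2) 0 1 := by
    intro i
    apply Continuous.intervalIntegrable
    have : Continuous (fun θ : ℝ =>
        (Real.cosh (ν i * t) - ((psi s (circleMap 0 1 θ)) ^ ν i).re) ^ 2) :=
      (continuous_const.sub (Complex.continuous_re.comp (hcont.pow _))).pow 2
    exact this
  have hca : ∀ i, Real.circleAverage (a i) 0 1 = Real.sinh (ν i * t) := fun i => (hA (ν i) t ht).2.2.1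
  have hca2 : ∀ i, Real.circleAverage (fun w => a i w ^ 2) 0 1 =
      Real.sinh (ν i * t) * Real.cosh (ν i * t) := fun i => (hA (ν i) t ht).2.2.2
  have hU : ∀ γ, CircleIntegrable
      (fun w => muP q γ * (f γ * Real.log ‖(P γ).eval (psi s w)‖)) 0 1 := by
    intro γ
    rcases (hf γ).eq_or_lt with h | h
    · rw [← h]
      simp only [zero_mul, mul_zero]
      exact circleIntegrable_const _ _ _
    · have h1 := ((hJen γ h).1.const_smul (a := f γ)).const_smul (a := muP q γ)
      exact h1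
  have hV : ∀ γ, CircleIntegrable
      (fun w => ∑ i, (α γ i * a i w + β γ i * a i w ^ 2)) 0 1 ∧
      Real.circleAverage (fun w => ∑ i, (α γ i * a i w + β γ i * a i w ^ 2)) 0 1 =
      ∑ i, R i * Real.sinh (ν i * t) * (((alive γ i).card : ℝ) / q i -
        (1 + c1 * R i * Real.cosh (ν i * t)) * (if Hit (alive γ i) (γ i) then 1 else 0)) := by
    intro γ
    have hi : ∀ i ∈ (univ : Finset (Fin N)),
        CircleIntegrable (fun w => α γ i * a i w + β γ i * a i w ^ 2) 0 1 := fun i _ =>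
      (CORE_ca_lin (a i) (hai i) (hai2 i) (α γ i) (β γ i)).1
    refine ⟨?_, ?_⟩
    · have := CircleIntegrable.sum univ hi
      convert this using 1
      funext w
      rw [Finset.sum_apply]
    rw [Real.circleAverage_fun_sum hi]
    apply Finset.sum_congr rfl
    intro i _
    rw [(CORE_ca_lin (a i) (hai i) (hai2 i) (α γ i) (β γ i)).2, hca, hca2]
    simp only [hα, hβ]
    split_ifs <;> ring
  have hV2 : ∀ γ, CircleIntegrable
      (fun w => muP q γ * f γ * ∑ i, (α γ i * a i w + β γ i * a i w ^ 2)) 0 1 := by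
    intro γ
    have h1 := (hV γ).1.const_smul (a := muP q γ * f γ)
    exact h1
  have hUs : CircleIntegrable
      (fun w => ∑ γ, muP q γ * (f γ * Real.log ‖(P γ).eval (psi s w)‖)) 0 1 := by
    have := CircleIntegrable.sum univ (fun γ _ => hU γ)
    convert this using 1
    funext w
    rw [Finset.sum_apply]
  have hVs : CircleIntegrable (fun w => ∑ γ, muP q γ * f γ *
      ∑ i, (α γ i * a i w + β γ i * a i w ^ 2)) 0 1 := by
    have := CircleIntegrable.sum univ (fun γ _ => hV2 γ)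
    convert this using 1
    funext w
    rw [Finset.sum_apply]
  have hmono := Real.circleAverage_mono (hUs.add hVs)
    (circleIntegrable_const (∑ γ, muP q γ * (f γ * Real.log (f γ))) 0 1) (by
      intro w hw
      apply hpt w
      rw [mem_sphere_zero_iff_norm] at hw
      rw [hw]; simp)
  rw [Real.circleAverage_const, Real.circleAverage_add hUs hVs,
    Real.circleAverage_fun_sum (fun γ _ => hU γ), Real.circleAverage_fun_sum (fun γ _ => hV2 γ)] at hmono
  have hlow : ∑ γ, muP q γ * (f γ * (Real.log (f γ) - n * t)) ≤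
      ∑ γ, Real.circleAverage (fun w => muP q γ * (f γ * Real.log ‖(P γ).eval (psi s w)‖)) 0 1 := by
    apply Finset.sum_le_sum
    intro γ _
    rcases (hf γ).eq_or_lt with h | h
    · rw [← h]
      simp only [zero_mul, mul_zero]
      rw [Real.circleAverage_const]
    · have e : Real.circleAverage
          (fun w => muP q γ * (f γ * Real.log ‖(P γ).eval (psi s w)‖)) 0 1 =
          muP q γ * f γ * Real.circleAverage (fun w => Real.log ‖(P γ).eval (psi s w)‖) 0 1 := by
        have := Real.circleAverage_fun_smul (a := muP q γ * f γ) (c := 0) (R := 1)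
          (f := fun w => Real.log ‖(P γ).eval (psi s w)‖)
        simp only [smul_eq_mul] at this
        rw [← this]
        congr 1
        funext w
        ring
      rw [e, ← mul_assoc]
      apply mul_le_mul_of_nonneg_left (hJen γ h).2
      exact mul_nonneg (CORE_mu_nonneg q hq γ) (hf γ)
  have hVe : ∀ γ, Real.circleAverage
      (fun w => muP q γ * f γ * ∑ i, (α γ i * a i w + β γ i * a i w ^ 2)) 0 1 =
      muP q γ * f γ * ∑ i, R i * Real.sinh (ν i * t) * (((alive γ i).card : ℝ) / q i -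
        (1 + c1 * R i * Real.cosh (ν i * t)) * (if Hit (alive γ i) (γ i) then 1 else 0)) := by
    intro γ
    have := Real.circleAverage_fun_smul (a := muP q γ * f γ) (c := 0) (R := 1)
      (f := fun w => ∑ i, (α γ i * a i w + β γ i * a i w ^ 2))
    simp only [smul_eq_mul] at this
    rw [this, (hV γ).2]
  simp only [hVe] at hmono
  have hsplit : ∑ γ, muP q γ * (f γ * (Real.log (f γ) - n * t)) =
      ∑ γ, muP q γ * (f γ * Real.log (f γ)) - n * t * ∑ γ, muP q γ * f γ := by
    rw [Finset.mul_sum, ← Finset.sum_sub_distrib]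
    apply Finset.sum_congr rfl
    intro γ _
    ring
  rw [hsplit] at hlow
  linarith

end Pool.Agent.N422.NW
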